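import Pool.Agent.H68.TM.Def
import Pool.Agent.H68.TG.Rg1
import Pool.Agent.H68.TG.Rg2
import Pool.Agent.H68.TG.Inv
import Pool.Agent.H68.TG.Db2
import Pool.Agent.H68.TO.LpI
import Pool.Agent.H68.HD.AC0

/-!
# Module MiE: Lipschitz minimizers are Euler-Lagrange curves
First variation as in `TG.db1`, but directly for `L` with `w = deriv δ`: for bounded measurable `ψ` with `∫_0^1 ψ = 0`, `φ t = ∫_0^t ψ`,
`s ↦ ∫_0^1 L(δ + s φ, δ' + s ψ, t)` has a minimum at `0`; derivative `∫ ⟪Lx, φ⟫ + ⟪Lv, ψ⟫ = 0`. `TG.db2`: `Lv L (δ t) (deriv δ t) t = q + ∫_0^t Lx` a.e.; with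
`p` the right hand side and `w t = Vi L (δ t) (p t) t` (continuous, `vi_cont`), `deriv δ = w` a.e. on `[0, 1]` (`vi_uniq`), so `δ` has the derivative `w` on `[0, 1]`
(`ac_ftc`, fundamental theorem) and `dp` follows as in `TG.mom`, `TG.ctn`.
-/

set_option autoImplicit false

open MeasureTheory Filter
open scoped RealInnerProductSpace Topology

namespace Pool.Agent.H68.TM

open Pool.Agent.H33.AM (E Tor pr IsPeriodic IsEL IsELFlow Ph Lc rep repE actionValues)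
open Pool.Agent.H68.HD
open Pool.Agent.H68.TO (Slow Cst)
open Pool.Agent.H68.TG

variable {n : ℕ}

private theorem mie_ii {f : ℝ → E n} {N : ℝ} (hf : Measurable f) (hfb : ∀ t, ‖f t‖ ≤ N) (a b : ℝ) :
    IntervalIntegrable f volume a b :=
  (intervalIntegrable_const (c := N)).mono_fun' hf.aestronglyMeasurable
    (Eventually.of_forall fun t => hfb t)

/-- a measurable function with bounded values is integrable -/
private theorem mie_bd {f : ℝ → ℝ} {C : ℝ} (hf : Measurable f) (hfb : ∀ t ∈ Set.Icc (0 : ℝ) 1, ‖f t‖ ≤ C) :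
    IntervalIntegrable f volume 0 1 := by
  rw [intervalIntegrable_iff_integrableOn_Icc_of_le zero_le_one]
  refine Measure.integrableOn_of_bounded (M := C) (by simp) hf.aestronglyMeasurable ?_
  rw [ae_restrict_iff' measurableSet_Icc]
  exact Eventually.of_forall hfb

/-- a continuous function is bounded on bounded sets -/
private theorem mie_cpt {F : Type*} [NormedAddCommGroup F] {g : E n × E n × ℝ → F} (hg : Continuous g)
    (R R' : ℝ) : ∃ C : ℝ, 0 ≤ C ∧ ∀ (x v : E n) (t : ℝ), ‖x‖ ≤ R → ‖v‖ ≤ R' → t ∈ Set.Icc (0 : ℝ) 1 →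
      ‖g (x, v, t)‖ ≤ C := by
  have hK : IsCompact ((Metric.closedBall (0 : E n) R) ×ˢ (Metric.closedBall (0 : E n) R' ×ˢ
      Set.Icc (0 : ℝ) 1)) :=
    (isCompact_closedBall _ _).prod ((isCompact_closedBall _ _).prod isCompact_Icc)
  obtain ⟨C, hC⟩ := hK.exists_bound_of_continuousOn hg.continuousOn
  refine ⟨max C 0, le_max_right _ _, fun x v t hx hv ht => (hC (x, v, t) ⟨?_, ?_, ht⟩).trans (le_max_left _ _)⟩
  · rw [Metric.mem_closedBall, dist_zero_right]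
    exact hx
  · rw [Metric.mem_closedBall, dist_zero_right]
    exact hv

/-- the first variation -/
private theorem mie_fv {L : E n → E n → ℝ → ℝ} (hL : Ton L) {δ : ℝ → E n} {ρs : ℝ} (hρs : 0 ≤ ρs)
    (hδ : Lip ρs δ)
    (hmin : ∀ (η : ℝ → E n) (ρ' : ℝ), 0 ≤ ρ' → Lip ρ' η → η 0 = δ 0 → η 1 = δ 1 →
      ∫ t in (0 : ℝ)..1, L (δ t) (deriv δ t) t ≤ ∫ t in (0 : ℝ)..1, L (η t) (deriv η t) t)
    {ψ : ℝ → E n} {N : ℝ} (hψ : Measurable ψ) (hψb : ∀ t, ‖ψ t‖ ≤ N)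
    (h0 : ∫ t in (0 : ℝ)..1, ψ t = 0) :
    ∫ t in (0 : ℝ)..1, (⟪Lx L (δ t) (deriv δ t) t, ∫ s in (0 : ℝ)..t, ψ s⟫ +
      ⟪Lv L (δ t) (deriv δ t) t, ψ t⟫) = 0 := by
  have hN : 0 ≤ N := (norm_nonneg _).trans (hψb 0)
  obtain ⟨φ, hφ⟩ : ∃ φ : ℝ → E n, φ = fun t => ∫ s in (0 : ℝ)..t, ψ s := ⟨_, rfl⟩
  have hφa : ∀ t, φ t = ∫ s in (0 : ℝ)..t, ψ s := fun t => by rw [hφ]
  have hφl : Lip N φ := by
    intro s t
    rw [hφa, hφa, intervalIntegral.integral_interval_sub_left (mie_ii hψ hψb 0 t) (mie_ii hψ hψb 0 s)]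
    exact intervalIntegral.norm_integral_le_of_norm_le_const fun x _ => hψb x
  have hφ0 : φ 0 = 0 := by rw [hφa, intervalIntegral.integral_same]
  have hφ1 : φ 1 = 0 := by rw [hφa, h0]
  have hφb : ∀ t ∈ Set.Icc (0 : ℝ) 1, ‖φ t‖ ≤ N := by
    intro t ht
    have h1 := hφl 0 t
    rw [hφ0, sub_zero, sub_zero, abs_of_nonneg ht.1] at h1
    exact h1.trans (mul_le_of_le_one_right hN ht.2)
  have hδb : ∀ t ∈ Set.Icc (0 : ℝ) 1, ‖δ t‖ ≤ ‖δ 0‖ + ρs := by
    intro t ht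
    have h1 := hδ 0 t
    rw [sub_zero, abs_of_nonneg ht.1] at h1
    have h2 : ‖δ t‖ ≤ ‖δ 0‖ + ‖δ t - δ 0‖ := by
      have h3 : δ t = δ 0 + (δ t - δ 0) := by abel
      calc ‖δ t‖ = ‖δ 0 + (δ t - δ 0)‖ := by rw [← h3]
        _ ≤ _ := norm_add_le _ _
    have h4 : ρs * t ≤ ρs := mul_le_of_le_one_right hρs ht.2
    linarith
  have hδc : Continuous δ := by
    have h1 : LipschitzWith ⟨ρs, hρs⟩ δ := by
      refine LipschitzWith.of_dist_le_mul fun x y => ?_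
      rw [dist_eq_norm, Real.dist_eq]
      exact hδ y x
    exact h1.continuous
  have hφc : Continuous φ := by
    have h1 : LipschitzWith ⟨N, hN⟩ φ := by
      refine LipschitzWith.of_dist_le_mul fun x y => ?_
      rw [dist_eq_norm, Real.dist_eq]
      exact hφl y x
    exact h1.continuous
  have hdb : ∀ t, ‖deriv δ t‖ ≤ ρs := fun t => Pool.Agent.H68.TO.lpi_deriv hρs hδ t
  -- the curves
  obtain ⟨η, hη⟩ : ∃ η : ℝ → ℝ → E n, η = fun s t => δ t + s • φ t := ⟨_, rfl⟩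
  have hηa : ∀ s t, η s t = δ t + s • φ t := fun s t => by rw [hη]
  have hηl : ∀ s, Lip (ρs + |s| * N) (η s) := by
    intro s u t
    rw [hηa, hηa]
    have h1 : δ t + s • φ t - (δ u + s • φ u) = (δ t - δ u) + s • (φ t - φ u) := by
      rw [smul_sub]
      abel
    rw [h1]
    refine (norm_add_le _ _).trans ?_
    rw [norm_smul, Real.norm_eq_abs, add_mul, mul_assoc]
    exact add_le_add (hδ u t) (mul_le_mul_of_nonneg_left (hφl u t) (abs_nonneg s))
  have hηρ : ∀ s : ℝ, 0 ≤ ρs + |s| * N := fun s => by positivity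
  have hη0 : ∀ s, η s 0 = δ 0 := fun s => by rw [hηa, hφ0, smul_zero, add_zero]
  have hη1 : ∀ s, η s 1 = δ 1 := fun s => by rw [hηa, hφ1, smul_zero, add_zero]
  have hac : AbsolutelyContinuousOnInterval δ 0 1 := by
    have h1 : LipschitzWith ⟨ρs, hρs⟩ δ := by
      refine LipschitzWith.of_dist_le_mul fun x y => ?_
      rw [dist_eq_norm, Real.dist_eq]
      exact hδ y x
    exact h1.lipschitzOnWith.absolutelyContinuousOnInterval
  have hηd : ∀ s, ∀ᵐ t : ℝ, t ∈ Set.uIcc (0 : ℝ) 1 → deriv (η s) t = deriv δ t + s • ψ t := by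
    intro s
    filter_upwards [ac_diff hac, (mie_ii hψ hψb 0 1).ae_hasDerivAt_integral] with t h1 h2 ht
    have h3 : HasDerivAt φ (ψ t) t := by
      rw [hφ]
      exact h2 ht 0 Set.left_mem_uIcc
    have h4 := (h1 ht).hasDerivAt.add (h3.const_smul s)
    have h5 : η s = δ + s • φ := by
      rw [hη]
      rfl
    rw [h5]
    exact h4.deriv
  -- the integrand
  have hw : Measurable (deriv δ) := measurable_deriv δ
  obtain ⟨F, hF⟩ : ∃ F : ℝ → ℝ → ℝ, F = fun s t =>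
      L (δ t + s • φ t) (deriv δ t + s • ψ t) t := ⟨_, rfl⟩
  have hFa : ∀ s t, F s t = L (δ t + s • φ t) (deriv δ t + s • ψ t) t := fun s t => by rw [hF]
  have hz : ∀ s : ℝ, Measurable fun t : ℝ => ((δ t + s • φ t, deriv δ t + s • ψ t, t) : E n × E n × ℝ) := by
    intro s
    exact (hδc.measurable.add (hφc.measurable.const_smul s)).prodMk
      ((hw.add (hψ.const_smul s)).prodMk measurable_id)
  have hFm : ∀ s, Measurable (F s) := by
    intro s
    rw [hF]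
    exact hL.smooth.continuous.measurable.comp (hz s)
  have hxb : ∀ s : ℝ, ∀ t ∈ Set.Icc (0 : ℝ) 1, ‖δ t + s • φ t‖ ≤ ‖δ 0‖ + ρs + |s| * N := by
    intro s t ht
    refine (norm_add_le _ _).trans (add_le_add (hδb t ht) ?_)
    rw [norm_smul, Real.norm_eq_abs]
    exact mul_le_mul_of_nonneg_left (hφb t ht) (abs_nonneg s)
  have hvb : ∀ s : ℝ, ∀ t, ‖deriv δ t + s • ψ t‖ ≤ ρs + |s| * N := by
    intro s t
    refine (norm_add_le _ _).trans (add_le_add (hdb t) ?_)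
    rw [norm_smul, Real.norm_eq_abs]
    exact mul_le_mul_of_nonneg_left (hψb t) (abs_nonneg s)
  have hFi : ∀ s, IntervalIntegrable (F s) volume 0 1 := by
    intro s
    obtain ⟨C, -, hC⟩ := mie_cpt hL.smooth.continuous (‖δ 0‖ + ρs + |s| * N) (ρs + |s| * N)
    refine mie_bd (C := C) (hFm s) fun t ht => ?_
    rw [hFa]
    exact hC _ _ t (hxb s t ht) (hvb s t) ht
  have hA0 : ∫ t in (0 : ℝ)..1, F 0 t = ∫ t in (0 : ℝ)..1, L (δ t) (deriv δ t) t := by
    refine intervalIntegral.integral_congr fun t _ => ?_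
    show F 0 t = L (δ t) (deriv δ t) t
    rw [hFa, zero_smul, zero_smul, add_zero, add_zero]
  have hAs : ∀ s, ∫ t in (0 : ℝ)..1, L (η s t) (deriv (η s) t) t = ∫ t in (0 : ℝ)..1, F s t := by
    intro s
    refine intervalIntegral.integral_congr_ae ?_
    filter_upwards [hηd s] with t ht htm
    rw [ht (Set.uIoc_subset_uIcc htm), hFa, hηa]
  have hminA : IsLocalMin (fun s => ∫ t in (0 : ℝ)..1, F s t) 0 := by
    refine Eventually.of_forall fun s => ?_
    show ∫ t in (0 : ℝ)..1, F 0 t ≤ ∫ t in (0 : ℝ)..1, F s t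
    rw [hA0]
    exact (hmin (η s) _ (hηρ s) (hηl s) (hη0 s) (hη1 s)).trans (hAs s).le
  -- the derivative
  obtain ⟨G, hG⟩ : ∃ G : ℝ → ℝ → ℝ, G = fun s t =>
      ⟪Lx L (δ t + s • φ t) (deriv δ t + s • ψ t) t, φ t⟫ +
        ⟪Lv L (δ t + s • φ t) (deriv δ t + s • ψ t) t, ψ t⟫ :=
    ⟨_, rfl⟩
  obtain ⟨CX, hCX0, hCX⟩ := mie_cpt (lx_cont hL) (‖δ 0‖ + ρs + N) (ρs + N)
  obtain ⟨CV, hCV0, hCV⟩ := mie_cpt (lv_cont hL) (‖δ 0‖ + ρs + N) (ρs + N)
  have hder := intervalIntegral.hasDerivAt_integral_of_dominated_loc_of_deriv_le (μ := volume)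
    (a := 0) (b := 1) (F := F) (F' := G) (x₀ := 0) (s := Metric.ball 0 1)
    (bound := fun _ => CX * N + CV * N) (Metric.ball_mem_nhds 0 one_pos)
    (Eventually.of_forall fun s => (hFm s).aestronglyMeasurable) (hFi 0)
    (by
      rw [hG]
      exact ((((lx_cont hL).measurable.comp (hz 0)).inner hφc.measurable).add
        (((lv_cont hL).measurable.comp (hz 0)).inner hψ)).aestronglyMeasurable)
    (by
      refine Eventually.of_forall fun t ht s hs => ?_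
      have ht' : t ∈ Set.Icc (0 : ℝ) 1 := by
        rw [Set.uIoc_of_le zero_le_one] at ht
        exact ⟨ht.1.le, ht.2⟩
      have hs' : |s| ≤ 1 := by
        rw [Metric.mem_ball, dist_zero_right, Real.norm_eq_abs] at hs
        exact hs.le
      have h1 : |s| * N ≤ N := mul_le_of_le_one_left hN hs'
      have h2 := (hxb s t ht').trans (add_le_add_right h1 (‖δ 0‖ + ρs))
      have h3 := (hvb s t).trans (add_le_add_right h1 ρs)
      rw [hG]
      refine (norm_add_le _ _).trans (add_le_add ?_ ?_)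
      · exact (norm_inner_le_norm _ _).trans
          (mul_le_mul (hCX _ _ t h2 h3 ht') (hφb t ht') (norm_nonneg _) hCX0)
      · exact (norm_inner_le_norm _ _).trans
          (mul_le_mul (hCV _ _ t h2 h3 ht') (hψb t) (norm_nonneg _) hCV0))
    intervalIntegrable_const
    (by
      refine Eventually.of_forall fun t _ s _ => ?_
      rw [hF, hG]
      exact ltot hL (δ t) (deriv δ t) (φ t) (ψ t) t s)
  have h1 := hminA.hasDerivAt_eq_zero hder.2
  refine (intervalIntegral.integral_congr fun t _ => ?_).trans h1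
  show ⟪Lx L (δ t) (deriv δ t) t, ∫ s in (0 : ℝ)..t, ψ s⟫ + ⟪Lv L (δ t) (deriv δ t) t, ψ t⟫ = G 0 t
  rw [hG, ← hφa]
  simp only [zero_smul, add_zero]

private theorem mie_ftc {w : ℝ → E n} (hw : ContinuousOn w (Set.Icc (0 : ℝ) 1)) {t : ℝ}
    (ht : t ∈ Set.Icc (0 : ℝ) 1) :
    HasDerivWithinAt (fun u => ∫ s in (0 : ℝ)..u, w s) (w t) (Set.Icc (0 : ℝ) 1) t := by
  have : Fact (t ∈ Set.Icc (0 : ℝ) 1) := ⟨ht⟩
  have h1 : IntervalIntegrable w volume 0 t := by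
    refine ContinuousOn.intervalIntegrable (hw.mono ?_)
    rw [Set.uIcc_of_le ht.1]
    exact Set.Icc_subset_Icc_right ht.2
  exact intervalIntegral.integral_hasDerivWithinAt_right h1
    (hw.stronglyMeasurableAtFilter_nhdsWithin measurableSet_Icc t) (hw t ht)

private theorem mie_eq {f w : ℝ → E n} (h : ∀ᵐ t : ℝ, t ∈ Set.Icc (0 : ℝ) 1 → f t = w t) {t : ℝ}
    (ht : t ∈ Set.Icc (0 : ℝ) 1) : ∫ s in (0 : ℝ)..t, f s = ∫ s in (0 : ℝ)..t, w s := by
  refine intervalIntegral.integral_congr_ae ?_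
  filter_upwards [h] with s hs hm
  rw [Set.uIoc_of_le ht.1] at hm
  exact hs ⟨hm.1.le, hm.2.trans ht.2⟩

theorem mie {L : E n → E n → ℝ → ℝ} (hL : Ton L) {δ : ℝ → E n} {ρ : ℝ} (hρ : 0 ≤ ρ)
    (hδ : Lip ρ δ)
    (hmin : ∀ (η : ℝ → E n) (ρ' : ℝ), 0 ≤ ρ' → Lip ρ' η → η 0 = δ 0 → η 1 = δ 1 →
      ∫ t in (0 : ℝ)..1, L (δ t) (deriv δ t) t ≤ ∫ t in (0 : ℝ)..1, L (η t) (deriv η t) t) :
    ∃ w : ℝ → E n, Elc L δ w 0 1 := by
  have hlip : LipschitzWith ⟨ρ, hρ⟩ δ := by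
    refine LipschitzWith.of_dist_le_mul fun x y => ?_
    rw [dist_eq_norm, Real.dist_eq]
    exact hδ y x
  have hδc : Continuous δ := hlip.continuous
  have hdb : ∀ t, ‖deriv δ t‖ ≤ ρ := fun t => Pool.Agent.H68.TO.lpi_deriv hρ hδ t
  have hδb : ∀ t ∈ Set.Icc (0 : ℝ) 1, ‖δ t‖ ≤ ‖δ 0‖ + ρ := by
    intro t ht
    have h1 := hδ 0 t
    rw [sub_zero, abs_of_nonneg ht.1] at h1
    have h2 : ‖δ t‖ ≤ ‖δ 0‖ + ‖δ t - δ 0‖ := by
      have h3 : δ t = δ 0 + (δ t - δ 0) := by abel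
      calc ‖δ t‖ = ‖δ 0 + (δ t - δ 0)‖ := by rw [← h3]
        _ ≤ _ := norm_add_le _ _
    have h4 : ρ * t ≤ ρ := mul_le_of_le_one_right hρ ht.2
    linarith
  have hz : Measurable fun t : ℝ => ((δ t, deriv δ t, t) : E n × E n × ℝ) :=
    hδc.measurable.prodMk ((measurable_deriv δ).prodMk measurable_id)
  obtain ⟨CX, hCX0, hCX⟩ := mie_cpt (lx_cont hL) (‖δ 0‖ + ρ) ρ
  obtain ⟨CV, hCV0, hCV⟩ := mie_cpt (lv_cont hL) (‖δ 0‖ + ρ) ρ
  have hgm : Measurable fun t => Lx L (δ t) (deriv δ t) t := (lx_cont hL).measurable.comp hz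
  have hfm : Measurable fun t => Lv L (δ t) (deriv δ t) t := (lv_cont hL).measurable.comp hz
  have hgb : ∀ t ∈ Set.Icc (0 : ℝ) 1, ‖Lx L (δ t) (deriv δ t) t‖ ≤ CX + CV := fun t ht =>
    (hCX _ _ t (hδb t ht) (hdb t) ht).trans (by linarith)
  have hfb : ∀ t ∈ Set.Icc (0 : ℝ) 1, ‖Lv L (δ t) (deriv δ t) t‖ ≤ CX + CV := fun t ht =>
    (hCV _ _ t (hδb t ht) (hdb t) ht).trans (by linarith)
  obtain ⟨q, hq⟩ := db2 hfm hgm hfb hgb (fun ψ hψ hb h0 => by
    obtain ⟨N, hN⟩ := hb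
    exact mie_fv hL hρ hδ hmin hψ hN h0)
  obtain ⟨p, hp⟩ : ∃ p : ℝ → E n, p = fun t => q + ∫ s in (0 : ℝ)..t, Lx L (δ s) (deriv δ s) s :=
    ⟨_, rfl⟩
  have hgi : IntegrableOn (fun t => Lx L (δ t) (deriv δ t) t) (Set.uIcc (0 : ℝ) 1) volume := by
    rw [Set.uIcc_of_le zero_le_one]
    refine Measure.integrableOn_of_bounded (M := CX + CV) (by simp) hgm.aestronglyMeasurable ?_
    rw [ae_restrict_iff' measurableSet_Icc]
    exact Eventually.of_forall hgb
  have hpc : ContinuousOn p (Set.Icc (0 : ℝ) 1) := by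
    have h1 := intervalIntegral.continuousOn_primitive_interval hgi
    rw [Set.uIcc_of_le zero_le_one] at h1
    rw [hp]
    exact continuousOn_const.add h1
  obtain ⟨w, hw⟩ : ∃ w : ℝ → E n, w = fun t => Vi L (δ t) (p t) t := ⟨_, rfl⟩
  have hwp : ∀ t, Lv L (δ t) (w t) t = p t := fun t => by
    rw [hw]
    exact vi_spec hL _ _ _
  have hwc : ContinuousOn w (Set.Icc (0 : ℝ) 1) := by
    rw [hw]
    exact (vi_cont hL).comp_continuousOn
      (f := fun t : ℝ => ((δ t, p t, t) : E n × E n × ℝ))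
      (hδc.continuousOn.prodMk (hpc.prodMk continuousOn_id))
  have hae : ∀ᵐ t : ℝ, t ∈ Set.Icc (0 : ℝ) 1 → deriv δ t = w t := by
    filter_upwards [hq] with t ht hm
    have h1 : Lv L (δ t) (deriv δ t) t = p t := by
      rw [hp]
      exact ht hm
    rw [hw]
    exact vi_uniq hL h1
  refine ⟨w, hwc, fun t ht => ?_, fun t ht => ?_⟩
  · have h1 : ∀ s ∈ Set.Icc (0 : ℝ) 1, δ s = δ 0 + ∫ u in (0 : ℝ)..s, w u := by
      intro s hs
      have h2 : AbsolutelyContinuousOnInterval δ 0 s :=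
        hlip.lipschitzOnWith.absolutelyContinuousOnInterval
      rw [← mie_eq hae hs, ac_ftc h2]
      abel
    exact ((mie_ftc hwc ht).const_add (δ 0)).congr h1 (h1 t ht)
  · have hae2 : ∀ᵐ t : ℝ, t ∈ Set.Icc (0 : ℝ) 1 →
        Lx L (δ t) (deriv δ t) t = Lx L (δ t) (w t) t := by
      filter_upwards [hae] with t ht hm
      rw [ht hm]
    have hxc : ContinuousOn (fun t => Lx L (δ t) (w t) t) (Set.Icc (0 : ℝ) 1) :=
      (lx_cont hL).comp_continuousOn
        (f := fun t : ℝ => ((δ t, w t, t) : E n × E n × ℝ))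
        (hδc.continuousOn.prodMk (hwc.prodMk continuousOn_id))
    have h1 : ∀ s ∈ Set.Icc (0 : ℝ) 1, Lv L (δ s) (w s) s =
        q + ∫ u in (0 : ℝ)..s, Lx L (δ u) (w u) u := by
      intro s hs
      rw [hwp, hp, ← mie_eq hae2 hs]
    exact ((mie_ftc hxc ht).const_add q).congr h1 (h1 t ht)

end Pool.Agent.H68.TM
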