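import Pool.Agent.H68.TM.Def
import Pool.Agent.H68.TG.Rg2

/-!
# Module Sh: translations of Lagrangians and of solutions
`isEL_shift`: `deriv (fun t => γ (t + τ)) t = deriv γ (t + τ)`, chain rule for the momentum. `isEL_tr`: periodicity of `L`, so of the gradients
(`lv_per`, `lx_per`). `ton_shift`: all fields of `Ton`; `flow` from `hL.flow x v (t + τ)` and `isEL_shift`.
-/

set_option autoImplicit false

open MeasureTheory Filter
open scoped RealInnerProductSpace Topology

namespace Pool.Agent.H68.TM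

open Pool.Agent.H33.AM (E Tor pr IsPeriodic IsEL IsELFlow Ph Lc rep repE actionValues)
open Pool.Agent.H68.HD
open Pool.Agent.H68.TO (Slow Cst)
open Pool.Agent.H68.TG

variable {n : ℕ}

theorem isEL_shift {L : E n → E n → ℝ → ℝ} {γ : ℝ → E n} (h : IsEL L γ) (τ : ℝ) :
    IsEL (fun x v t => L x v (t + τ)) (fun t => γ (t + τ)) := by
  have hd : ∀ t, deriv (fun t => γ (t + τ)) t = deriv γ (t + τ) := fun t =>
    deriv_comp_add_const γ τ t
  refine ⟨fun t => ((h.1 (t + τ)).hasDerivAt.comp_add_const t τ).differentiableAt, fun t => ?_⟩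
  have h2 := (h.2 (t + τ)).comp_add_const t τ
  rw [← hd t] at h2
  have h3 : (fun s => gradient (fun v => L (γ (s + τ)) v (s + τ)) (deriv (fun t => γ (t + τ)) s))
      = fun s => gradient (fun v => L (γ (s + τ)) v (s + τ)) (deriv γ (s + τ)) := by
    funext s
    rw [hd s]
  rw [← h3] at h2
  exact h2

private theorem coe_Sh (t : ℝ) (k : ℤ) : ((t : ℝ) : UnitAddCircle) = ((t + k : ℝ) : UnitAddCircle) := by
  rw [eq_comm, ← sub_eq_zero, ← AddCircle.coe_sub, AddCircle.coe_eq_zero_iff]
  exact ⟨k, by simp⟩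

private theorem per_Sh {L : E n → E n → ℝ → ℝ} (hL : IsPeriodic L) (x v : E n) (t : ℝ)
    (z : Fin n → ℤ) (k : ℤ) : L (x + zv z) v t = L x v (t + k) :=
  hL (x + zv z) x v t (t + k) (pr_eq_pr.2 ⟨-z, by rw [zv_neg, add_neg_cancel_right]⟩) (coe_Sh t k)

private theorem grad_Sh (f : E n → ℝ) (g : E n → ℝ) (a x : E n) (h : ∀ y, f (y + a) = g y) :
    gradient f (x + a) = gradient g x := by
  have h1 : g = fun y => f (y + a) := by
    funext y
    exact (h y).symm
  rw [h1, gradient, gradient, fderiv_comp_add_right]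

theorem isEL_tr {L : E n → E n → ℝ → ℝ} (hL : Ton L) {γ : ℝ → E n} (h : IsEL L γ)
    (z : Fin n → ℤ) (k : ℤ) : IsEL L (fun t => γ (t + k) + zv z) := by
  have hd : ∀ t, deriv (fun t => γ (t + k) + zv z) t = deriv γ (t + k) := fun t => by
    rw [deriv_add_const]
    exact deriv_comp_add_const γ (k : ℝ) t
  refine ⟨fun t => (((h.1 (t + k)).hasDerivAt.comp_add_const t (k : ℝ)).differentiableAt).add_const _,
    fun t => ?_⟩
  have h2 := (h.2 (t + k)).comp_add_const t (k : ℝ)
  have h3 : (fun s => gradient (fun v => L (γ (s + k) + zv z) v s)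
      (deriv (fun t => γ (t + k) + zv z) s))
      = fun s => gradient (fun v => L (γ (s + k)) v (s + k)) (deriv γ (s + k)) := by
    funext s
    rw [hd s]
    congr 1
    funext v
    exact per_Sh hL.per _ _ _ _ _
  have h4 : gradient (fun x => L x (deriv (fun t => γ (t + k) + zv z) t) t) (γ (t + k) + zv z)
      = gradient (fun x => L x (deriv γ (t + k)) (t + k)) (γ (t + k)) := by
    rw [hd t]
    exact grad_Sh _ _ _ _ fun y => per_Sh hL.per y _ t z k
  rw [← h3, ← h4] at h2
  exact h2

theorem ton_shift {L : E n → E n → ℝ → ℝ} (hL : Ton L) (τ : ℝ) :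
    Ton fun x v t => L x v (t + τ) where
  per := by
    intro x y v s t hxy hst
    refine hL.per x y v (s + τ) (t + τ) hxy ?_
    rw [AddCircle.coe_add, AddCircle.coe_add, hst]
  smooth := by
    have h1 : ContDiff ℝ 2 fun z : E n × E n × ℝ => (z.1, z.2.1, z.2.2 + τ) := by fun_prop
    exact hL.smooth.comp h1
  pos := fun x v t w hw => hL.pos x v (t + τ) w hw
  sup := by
    intro a
    obtain ⟨b, hb⟩ := hL.sup a
    exact ⟨b, fun x v t => hb x v (t + τ)⟩
  flow := by
    intro x v t
    obtain ⟨γ, h1, h2, h3⟩ := hL.flow x v (t + τ)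
    exact ⟨fun s => γ (s + τ), isEL_shift h1 τ, h2, (deriv_comp_add_const γ τ t).trans h3⟩

end Pool.Agent.H68.TM
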