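import Pool.Agent.H68.TM.Def
import Pool.Agent.H68.TO.LpI

/-!
# Module Wd: periodic minimizers are minimizers on every unit window
Given `η` on `[0, 1]` with `η 0 = δ τ`, `η 1 = δ (1 + τ)`: let `ξ` be the curve with `ξ t = η (t - τ)` on `[τ, τ + 1]`, `ξ = δ` on `[τ + 1, τ + k]`, extended by
`ξ (t + k) = ξ t + zv z`; it is `max ρ ρ'`-Lipschitz, so `Pl`, and `∫_0^k L(ξ, ξ', t) = ∫_τ^{τ+k}` (the integrand is `k`-periodic:
`Function.Periodic.intervalIntegral_add_eq`) `= ∫_τ^{τ+1} + ∫_{τ+1}^{τ+k}`; the same for `δ`; subtract.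
-/

set_option autoImplicit false

open MeasureTheory Filter
open scoped RealInnerProductSpace Topology

namespace Pool.Agent.H68.TM

open Pool.Agent.H33.AM (E Tor pr IsPeriodic IsEL IsELFlow Ph Lc rep repE actionValues)
open Pool.Agent.H68.HD
open Pool.Agent.H68.TO (Slow Cst)
open Pool.Agent.H68.TG

variable {n : ℕ}

private theorem wd_lip {δ : ℝ → E n} {ρ : ℝ} (hρ : 0 ≤ ρ) (hδ : Lip ρ δ) :
    LipschitzWith ⟨ρ, hρ⟩ δ := by
  refine LipschitzWith.of_dist_le_mul fun x y => ?_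
  rw [dist_eq_norm, Real.dist_eq]
  exact hδ y x

/-- the integrand is integrable on every interval -/
private theorem wd_int {M : E n → E n → ℝ → ℝ}
    (hM : Continuous fun z : E n × E n × ℝ => M z.1 z.2.1 z.2.2) {δ : ℝ → E n} {ρ : ℝ} (hρ : 0 ≤ ρ)
    (hδ : Lip ρ δ) (a b : ℝ) :
    IntervalIntegrable (fun t => M (δ t) (deriv δ t) t) volume a b := by
  have hc : Continuous δ := (wd_lip hρ hδ).continuous
  have hmeas : Measurable fun t => M (δ t) (deriv δ t) t :=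
    hM.measurable.comp (hc.measurable.prodMk ((measurable_deriv δ).prodMk measurable_id))
  have hK : IsCompact ((δ '' Set.uIcc a b) ×ˢ (Metric.closedBall (0 : E n) ρ ×ˢ Set.uIcc a b)) :=
    (isCompact_uIcc.image hc).prod ((isCompact_closedBall _ _).prod isCompact_uIcc)
  obtain ⟨C, hC⟩ := hK.exists_bound_of_continuousOn hM.continuousOn
  rw [intervalIntegrable_iff]
  have hfin : volume (Set.uIoc a b) ≠ ⊤ :=
    ((measure_mono Set.uIoc_subset_uIcc).trans_lt isCompact_uIcc.measure_lt_top).ne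
  refine Measure.integrableOn_of_bounded (M := C) hfin hmeas.aestronglyMeasurable ?_
  rw [ae_restrict_iff' measurableSet_uIoc]
  refine Filter.Eventually.of_forall fun t ht => ?_
  have ht' := Set.uIoc_subset_uIcc ht
  refine hC (δ t, deriv δ t, t) ⟨⟨t, ht', rfl⟩, ?_, ht'⟩
  rw [Metric.mem_closedBall, dist_zero_right]
  exact norm_deriv_le_of_lipschitz (wd_lip hρ hδ)

/-- the integrand of a loop is periodic -/
private theorem wd_per {L : E n → E n → ℝ → ℝ} (hL : IsPeriodic L) {k : ℕ} {z : Fin n → ℤ}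
    {ξ : ℝ → E n} (hξ : ∀ t, ξ (t + k) = ξ t + zv z) :
    Function.Periodic (fun t => L (ξ t) (deriv ξ t) t) (k : ℝ) := by
  intro t
  have h1 : deriv ξ (t + k) = deriv ξ t := by
    have h2 : deriv (fun s => ξ (s + k)) t = deriv ξ (t + k) := deriv_comp_add_const ξ (k : ℝ) t
    have h3 : (fun s => ξ (s + k)) = fun s => ξ s + zv z := funext hξ
    rw [← h2, h3, deriv_add_const]
  show L (ξ (t + k)) (deriv ξ (t + k)) (t + k) = L (ξ t) (deriv ξ t) t
  rw [h1, hξ t]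
  refine hL _ _ _ _ _ (pr_eq_pr.2 ⟨z, rfl⟩).symm ?_
  rw [← sub_eq_zero, ← AddCircle.coe_sub, AddCircle.coe_eq_zero_iff]
  exact ⟨(k : ℤ), by simp⟩

/-- the periodization of a Lipschitz curve which vanishes at `0` and outside of `[0, 1]` -/
private theorem wd_fract {φ : ℝ → E n} {C : ℝ} (hC : 0 ≤ C) (hφ : Lip C φ) (h0 : φ 0 = 0)
    (h1 : ∀ s, 1 ≤ s → φ s = 0) {k : ℝ} (hk : 1 ≤ k) (τ : ℝ) :
    Lip C fun t => φ (k * Int.fract ((t - τ) / k)) := by
  have hk0 : 0 < k := lt_of_lt_of_le one_pos hk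
  have main : ∀ s t : ℝ, s ≤ t →
      ‖φ (k * Int.fract ((t - τ) / k)) - φ (k * Int.fract ((s - τ) / k))‖ ≤ C * (t - s) := by
    intro s t hst
    obtain ⟨a, ha⟩ : ∃ a, a = (s - τ) / k := ⟨_, rfl⟩
    obtain ⟨b, hb⟩ : ∃ b, b = (t - τ) / k := ⟨_, rfl⟩
    rw [← ha, ← hb]
    have hab : a ≤ b := by
      rw [ha, hb]
      exact div_le_div_of_nonneg_right (by linarith) hk0.le
    have hts : t - s = k * (b - a) := by
      rw [ha, hb]
      field_simp
      ring
    have hfl : ⌊a⌋ ≤ ⌊b⌋ := Int.floor_le_floor hab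
    have ea : a = ⌊a⌋ + Int.fract a := (Int.floor_add_fract a).symm
    have eb : b = ⌊b⌋ + Int.fract b := (Int.floor_add_fract b).symm
    have fa0 := Int.fract_nonneg a
    have fb0 := Int.fract_nonneg b
    have fa1 := (Int.fract_lt_one a).le
    rcases hfl.eq_or_lt with h | h
    · have hba : b - a = Int.fract b - Int.fract a := by
        rw [h] at ea
        linarith
      have hnn : 0 ≤ k * Int.fract b - k * Int.fract a := by
        rw [← mul_sub, ← hba]
        exact mul_nonneg hk0.le (by linarith)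
      refine (hφ (k * Int.fract a) (k * Int.fract b)).trans ?_
      rw [abs_of_nonneg hnn, ← mul_sub, ← hba, ← hts]
    · have h2 : (1 : ℝ) ≤ (⌊b⌋ : ℝ) - ⌊a⌋ := by
        have h3 : ⌊a⌋ + 1 ≤ ⌊b⌋ := h
        have h4 : ((⌊a⌋ + 1 : ℤ) : ℝ) ≤ (⌊b⌋ : ℝ) := Int.cast_le.2 h3
        push_cast at h4
        linarith
      have hba : 1 - Int.fract a + Int.fract b ≤ b - a := by linarith
      have e1 : ‖φ (k * Int.fract b)‖ ≤ C * (k * Int.fract b) := by
        have h5 := hφ 0 (k * Int.fract b)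
        rw [h0, sub_zero, sub_zero, abs_of_nonneg (mul_nonneg hk0.le fb0)] at h5
        exact h5
      have e2 : ‖φ (k * Int.fract a)‖ ≤ C * (k - k * Int.fract a) := by
        have h5 := hφ k (k * Int.fract a)
        rw [h1 k hk, sub_zero, abs_sub_comm, abs_of_nonneg (by nlinarith)] at h5
        exact h5
      calc ‖φ (k * Int.fract b) - φ (k * Int.fract a)‖
          ≤ ‖φ (k * Int.fract b)‖ + ‖φ (k * Int.fract a)‖ := norm_sub_le _ _
        _ ≤ C * (k * Int.fract b) + C * (k - k * Int.fract a) := add_le_add e1 e2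
        _ = C * (k * (1 - Int.fract a + Int.fract b)) := by ring
        _ ≤ C * (k * (b - a)) :=
            mul_le_mul_of_nonneg_left (mul_le_mul_of_nonneg_left hba hk0.le) hC
        _ = C * (t - s) := by rw [hts]
  intro s t
  rcases le_total s t with h | h
  · rw [abs_of_nonneg (by linarith)]
    exact main s t h
  · rw [norm_sub_rev, abs_sub_comm, abs_of_nonneg (by linarith)]
    exact main t s h

/-- the difference of the two curves, cut off -/
private theorem wd_cut {δ η : ℝ → E n} {ρ ρ' : ℝ} (hρ : 0 ≤ ρ) (hρ' : 0 ≤ ρ') (hδ : Lip ρ δ)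
    (hη : Lip ρ' η) (τ : ℝ) :
    Lip (ρ' + ρ) fun s => η (max 0 (min s 1)) - δ (max 0 (min s 1) + τ) := by
  have hc : ∀ s t : ℝ, |max 0 (min t 1) - max 0 (min s 1)| ≤ |t - s| := by
    intro s t
    refine (abs_max_sub_max_le_max _ _ _ _).trans ?_
    rw [sub_self, abs_zero]
    refine max_le (abs_nonneg _) ((abs_min_sub_min_le_max _ _ _ _).trans ?_)
    rw [sub_self, abs_zero]
    exact max_le le_rfl (abs_nonneg _)
  intro s t
  have e : (η (max 0 (min t 1)) - δ (max 0 (min t 1) + τ)) -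
      (η (max 0 (min s 1)) - δ (max 0 (min s 1) + τ)) =
      (η (max 0 (min t 1)) - η (max 0 (min s 1))) -
        (δ (max 0 (min t 1) + τ) - δ (max 0 (min s 1) + τ)) := by abel
  show ‖(η (max 0 (min t 1)) - δ (max 0 (min t 1) + τ)) -
      (η (max 0 (min s 1)) - δ (max 0 (min s 1) + τ))‖ ≤ (ρ' + ρ) * |t - s|
  rw [e]
  have h1 := hη (max 0 (min s 1)) (max 0 (min t 1))
  have h2 := hδ (max 0 (min s 1) + τ) (max 0 (min t 1) + τ)
  have h3 : (max 0 (min t 1) + τ) - (max 0 (min s 1) + τ) =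
      max 0 (min t 1) - max 0 (min s 1) := by ring
  rw [h3] at h2
  calc ‖(η (max 0 (min t 1)) - η (max 0 (min s 1))) -
        (δ (max 0 (min t 1) + τ) - δ (max 0 (min s 1) + τ))‖
      ≤ ‖η (max 0 (min t 1)) - η (max 0 (min s 1))‖ +
        ‖δ (max 0 (min t 1) + τ) - δ (max 0 (min s 1) + τ)‖ := norm_sub_le _ _
    _ ≤ ρ' * |max 0 (min t 1) - max 0 (min s 1)| + ρ * |max 0 (min t 1) - max 0 (min s 1)| :=
        add_le_add h1 h2
    _ = (ρ' + ρ) * |max 0 (min t 1) - max 0 (min s 1)| := by ring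
    _ ≤ (ρ' + ρ) * |t - s| := mul_le_mul_of_nonneg_left (hc s t) (by linarith)

theorem wd {L : E n → E n → ℝ → ℝ} (hL : Ton L) {k : ℕ} (hk : 0 < k) {z : Fin n → ℤ}
    {δ : ℝ → E n} {ρ : ℝ} (hρ : 0 ≤ ρ) (hδ : Pl ρ k z δ)
    (hmin : ∀ (η : ℝ → E n) (ρ' : ℝ), 0 ≤ ρ' → Pl ρ' k z η →
      ∫ t in (0 : ℝ)..k, L (δ t) (deriv δ t) t ≤ ∫ t in (0 : ℝ)..k, L (η t) (deriv η t) t)
    (τ : ℝ) (η : ℝ → E n) (ρ' : ℝ) (hρ' : 0 ≤ ρ') (hη : Lip ρ' η) (h0 : η 0 = δ τ)
    (h1 : η 1 = δ (1 + τ)) :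
    ∫ t in (0 : ℝ)..1, L (δ (t + τ)) (deriv δ (t + τ)) (t + τ) ≤
      ∫ t in (0 : ℝ)..1, L (η t) (deriv η t) (t + τ) := by
  have hk1 : (1 : ℝ) ≤ k := by exact_mod_cast hk
  have hk0 : (0 : ℝ) < k := lt_of_lt_of_le one_pos hk1
  obtain ⟨φ, hφd⟩ : ∃ φ : ℝ → E n,
      φ = fun s => η (max 0 (min s 1)) - δ (max 0 (min s 1) + τ) := ⟨_, rfl⟩
  have hφ : Lip (ρ' + ρ) φ := by
    rw [hφd]
    exact wd_cut hρ hρ' hδ.1 hη τ
  have hφ0 : φ 0 = 0 := by
    rw [hφd]
    show η (max 0 (min 0 1)) - δ (max 0 (min 0 1) + τ) = 0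
    rw [min_eq_left zero_le_one, max_self, zero_add, h0, sub_self]
  have hφ1 : ∀ s, 1 ≤ s → φ s = 0 := by
    intro s hs
    rw [hφd]
    show η (max 0 (min s 1)) - δ (max 0 (min s 1) + τ) = 0
    rw [min_eq_right hs, max_eq_right zero_le_one, h1, sub_self]
  have hφm : ∀ s, 0 ≤ s → s ≤ 1 → φ s = η s - δ (s + τ) := by
    intro s hs hs1
    rw [hφd]
    show η (max 0 (min s 1)) - δ (max 0 (min s 1) + τ) = _
    rw [min_eq_left hs1, max_eq_right hs]
  have hC0 : 0 ≤ ρ' + ρ := by linarith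
  have hζ := wd_fract hC0 hφ hφ0 hφ1 hk1 τ
  obtain ⟨ξ, hξd⟩ : ∃ ξ : ℝ → E n,
      ξ = fun t => δ t + φ (k * Int.fract ((t - τ) / k)) := ⟨_, rfl⟩
  have hξL : Lip (ρ + (ρ' + ρ)) ξ := by
    intro s t
    rw [hξd]
    have e : (δ t + φ (k * Int.fract ((t - τ) / k))) - (δ s + φ (k * Int.fract ((s - τ) / k))) =
        (δ t - δ s) + (φ (k * Int.fract ((t - τ) / k)) - φ (k * Int.fract ((s - τ) / k))) := by
      abel
    show ‖(δ t + φ (k * Int.fract ((t - τ) / k))) - (δ s + φ (k * Int.fract ((s - τ) / k)))‖ ≤ _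
    rw [e, add_mul]
    exact (norm_add_le _ _).trans (add_le_add (hδ.1 s t) (hζ s t))
  have hξP : ∀ t, ξ (t + k) = ξ t + zv z := by
    intro t
    rw [hξd]
    show δ (t + k) + φ (k * Int.fract ((t + k - τ) / k)) =
      δ t + φ (k * Int.fract ((t - τ) / k)) + zv z
    have h2 : (t + k - τ) / k = (t - τ) / k + 1 := by
      rw [show t + k - τ = (t - τ) + k by ring, add_div, div_self hk0.ne']
    rw [h2, Int.fract_add_one, hδ.2 t]
    abel
  have hξm : ∀ t ∈ Set.Ioo τ (τ + 1), ξ t = η (t - τ) := by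
    intro t ht
    have h2 : Int.fract ((t - τ) / k) = (t - τ) / k := by
      rw [Int.fract_eq_self]
      refine ⟨div_nonneg (by linarith [ht.1]) hk0.le, ?_⟩
      rw [div_lt_one hk0]
      linarith [ht.2]
    rw [hξd]
    show δ t + φ (k * Int.fract ((t - τ) / k)) = η (t - τ)
    rw [h2, mul_div_cancel₀ _ hk0.ne', hφm _ (by linarith [ht.1]) (by linarith [ht.2]),
      sub_add_cancel]
    abel
  have hξo : ∀ t ∈ Set.Ioo (τ + 1) (τ + k), ξ t = δ t := by
    intro t ht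
    have h2 : Int.fract ((t - τ) / k) = (t - τ) / k := by
      rw [Int.fract_eq_self]
      refine ⟨div_nonneg (by linarith [ht.1]) hk0.le, ?_⟩
      rw [div_lt_one hk0]
      linarith [ht.2]
    rw [hξd]
    show δ t + φ (k * Int.fract ((t - τ) / k)) = δ t
    rw [h2, mul_div_cancel₀ _ hk0.ne', hφ1 _ (by linarith [ht.1]), add_zero]
  have hcL := hL.smooth.continuous
  have hρ2 : 0 ≤ ρ + (ρ' + ρ) := by linarith
  -- the integrals over a period
  have hpd := (wd_per hL.per hδ.2).intervalIntegral_add_eq 0 τ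
  have hpx := (wd_per hL.per hξP).intervalIntegral_add_eq 0 τ
  rw [zero_add] at hpd hpx
  have hle := hmin ξ (ρ + (ρ' + ρ)) hρ2 ⟨hξL, hξP⟩
  rw [hpd, hpx] at hle
  rw [← intervalIntegral.integral_add_adjacent_intervals
      (wd_int hcL hρ hδ.1 τ (τ + 1)) (wd_int hcL hρ hδ.1 (τ + 1) (τ + k)),
    ← intervalIntegral.integral_add_adjacent_intervals
      (wd_int hcL hρ2 hξL τ (τ + 1)) (wd_int hcL hρ2 hξL (τ + 1) (τ + k))] at hle
  have e1 : ∫ t in (τ + 1)..(τ + k), L (ξ t) (deriv ξ t) t =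
      ∫ t in (τ + 1)..(τ + k), L (δ t) (deriv δ t) t := by
    refine intervalIntegral.integral_congr_Ioo_of_le (by linarith) fun t ht => ?_
    have h2 : ξ =ᶠ[𝓝 t] δ := by
      filter_upwards [Ioo_mem_nhds ht.1 ht.2] with s hs
      exact hξo s hs
    show L (ξ t) (deriv ξ t) t = L (δ t) (deriv δ t) t
    rw [h2.deriv_eq, hξo t ht]
  have e2 : ∫ t in τ..(τ + 1), L (ξ t) (deriv ξ t) t =
      ∫ t in (0 : ℝ)..1, L (η t) (deriv η t) (t + τ) := by
    have h3 : ∫ t in τ..(τ + 1), L (ξ t) (deriv ξ t) t =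
        ∫ t in τ..(τ + 1), (fun u => L (η u) (deriv η u) (u + τ)) (t - τ) := by
      refine intervalIntegral.integral_congr_Ioo_of_le (by linarith) fun t ht => ?_
      have h2 : ξ =ᶠ[𝓝 t] fun s => η (s - τ) := by
        filter_upwards [Ioo_mem_nhds ht.1 ht.2] with s hs
        exact hξm s hs
      show L (ξ t) (deriv ξ t) t = L (η (t - τ)) (deriv η (t - τ)) (t - τ + τ)
      rw [h2.deriv_eq, hξm t ht, deriv_comp_sub_const, sub_add_cancel]
    rw [h3, intervalIntegral.integral_comp_sub_right (fun u => L (η u) (deriv η u) (u + τ)) τ,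
      sub_self, add_sub_cancel_left]
  have e3 : ∫ t in τ..(τ + 1), L (δ t) (deriv δ t) t =
      ∫ t in (0 : ℝ)..1, L (δ (t + τ)) (deriv δ (t + τ)) (t + τ) := by
    have h4 := intervalIntegral.integral_comp_add_right (a := (0 : ℝ)) (b := 1)
      (fun u => L (δ u) (deriv δ u) u) τ
    rw [zero_add, add_comm (1 : ℝ) τ] at h4
    exact h4.symm
  rw [e1, e2, e3] at hle
  linarith

end Pool.Agent.H68.TM
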