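import Pool.Agent.H68.TM.Def
import Pool.Agent.H68.TM.Sh
import Pool.Agent.H68.TM.MiE
import Pool.Agent.H68.TM.Wd

/-!
# Module IsE: periodic minimizers are solutions on the whole line
For every `τ`: `mie` for the Lagrangian `fun x v t => L x v (t + τ)` (`ton_shift`) and the curve `t ↦ δ (t + τ)` (`wd`; `deriv (fun t => δ (t + τ)) t = deriv δ (t + τ)`)
gives `Elc` on `[0, 1]`; at the inner time `1/2` (choose `τ = t - 1/2`) one-sided derivatives are derivatives (`Icc 0 1` is a neighbourhood):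
`δ` is differentiable at `t`, `deriv δ = w` near `t`, and the momentum `Lv L (δ s) (deriv δ s) s` has the derivative `Lx` at `t` (agree with the
window's `w` in a neighbourhood of `t`).
-/

set_option autoImplicit false

open MeasureTheory Filter
open scoped RealInnerProductSpace Topology

namespace Pool.Agent.H68.TM

open Pool.Agent.H33.AM (E Tor pr IsPeriodic IsEL IsELFlow Ph Lc rep repE actionValues)
open Pool.Agent.H68.HD
open Pool.Agent.H68.TO (Slow Cst)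
open Pool.Agent.H68.TG

variable {n : ℕ}

private theorem ise_loc {L : E n → E n → ℝ → ℝ} (hL : Ton L) {k : ℕ} (hk : 0 < k) {z : Fin n → ℤ}
    {δ : ℝ → E n} {ρ : ℝ} (hρ : 0 ≤ ρ) (hδ : Pl ρ k z δ)
    (hmin : ∀ (η : ℝ → E n) (ρ' : ℝ), 0 ≤ ρ' → Pl ρ' k z η →
      ∫ t in (0 : ℝ)..k, L (δ t) (deriv δ t) t ≤ ∫ t in (0 : ℝ)..k, L (η t) (deriv η t) t)
    (t₀ : ℝ) : ∃ w : ℝ → E n,
      (∀ s ∈ Set.Ioo (t₀ - 1 / 2) (t₀ + 1 / 2), HasDerivAt δ (w s) s) ∧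
      HasDerivAt (fun s => Lv L (δ s) (w s) s) (Lx L (δ t₀) (w t₀) t₀) t₀ := by
  obtain ⟨τ, hτ⟩ : ∃ τ : ℝ, τ = t₀ - 1 / 2 := ⟨_, rfl⟩
  have hE : ∃ w : ℝ → E n, Elc (fun x v t => L x v (t + τ)) (fun t => δ (t + τ)) w 0 1 := by
    refine mie (ton_shift hL τ) hρ (fun s t => ?_) ?_
    · have h1 := hδ.1 (s + τ) (t + τ)
      have h2 : t + τ - (s + τ) = t - s := by ring
      rwa [h2] at h1
    · intro η ρ' hρ' hη h0 h1
      have h2 := wd hL hk hρ hδ hmin τ η ρ' hρ' hη (by simpa using h0) h1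
      simpa only [deriv_comp_add_const] using h2
  obtain ⟨w, hw⟩ := hE
  refine ⟨fun s => w (s - τ), fun s hs => ?_, ?_⟩
  · have h1 : s - τ ∈ Set.Ioo (0 : ℝ) 1 := ⟨by linarith [hs.1], by linarith [hs.2]⟩
    have h2 : HasDerivAt (fun t => δ (t + τ)) (w (s - τ)) (s - τ) :=
      (hw.dx _ (Set.Ioo_subset_Icc_self h1)).hasDerivAt (Icc_mem_nhds h1.1 h1.2)
    have h3 := h2.comp_sub_const s τ
    simpa only [sub_add_cancel] using h3
  · have h1 : t₀ - τ = 1 / 2 := by rw [hτ]; ring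
    have h2 : t₀ - τ ∈ Set.Ioo (0 : ℝ) 1 := by rw [h1]; constructor <;> norm_num
    have h3 := (hw.dp _ (Set.Ioo_subset_Icc_self h2)).hasDerivAt (Icc_mem_nhds h2.1 h2.2)
    have h4 := h3.comp_sub_const t₀ τ
    have h5 : ∀ (x v : E n) (t : ℝ), Lv (fun x v t => L x v (t + τ)) x v t = Lv L x v (t + τ) :=
      fun _ _ _ => rfl
    have h6 : ∀ (x v : E n) (t : ℝ), Lx (fun x v t => L x v (t + τ)) x v t = Lx L x v (t + τ) :=
      fun _ _ _ => rfl
    simpa only [h5, h6, sub_add_cancel] using h4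

theorem ise {L : E n → E n → ℝ → ℝ} (hL : Ton L) {k : ℕ} (hk : 0 < k) {z : Fin n → ℤ}
    {δ : ℝ → E n} {ρ : ℝ} (hρ : 0 ≤ ρ) (hδ : Pl ρ k z δ)
    (hmin : ∀ (η : ℝ → E n) (ρ' : ℝ), 0 ≤ ρ' → Pl ρ' k z η →
      ∫ t in (0 : ℝ)..k, L (δ t) (deriv δ t) t ≤ ∫ t in (0 : ℝ)..k, L (η t) (deriv η t) t) :
    IsEL L δ := by
  refine ⟨fun t₀ => ?_, fun t₀ => ?_⟩
  · obtain ⟨w, h1, -⟩ := ise_loc hL hk hρ hδ hmin t₀
    exact (h1 t₀ ⟨by linarith, by linarith⟩).differentiableAt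
  · obtain ⟨w, h1, h2⟩ := ise_loc hL hk hρ hδ hmin t₀
    have h3 : ∀ s ∈ Set.Ioo (t₀ - 1 / 2) (t₀ + 1 / 2), deriv δ s = w s := fun s hs => (h1 s hs).deriv
    have h4 : (fun s => gradient (fun v => L (δ s) v s) (deriv δ s)) =ᶠ[𝓝 t₀]
        fun s => Lv L (δ s) (w s) s := by
      filter_upwards [Ioo_mem_nhds (by linarith : t₀ - 1 / 2 < t₀) (by linarith : t₀ < t₀ + 1 / 2)]
        with s hs
      rw [h3 s hs]
      rfl
    have h5 := h2.congr_of_eventuallyEq h4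
    rw [h3 t₀ ⟨by linarith, by linarith⟩]
    exact h5

end Pool.Agent.H68.TM
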