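import Pool.Agent.H68.TM.Def
import Pool.Agent.H68.TM.ClT
import Pool.Agent.H68.TG.Elg

/-!
# Module Dep: continuity of the flow in the initial data
`V` = bound of `‖deriv γ‖` on `J = [t₀ - |s| - 1, t₀ + |s| + 1]` plus `1`, `C` from `clt` with `T = 2 |s| + 2`. If at `t₁` the data of `γ'` are
within `η` of those of `γ` at `t₁` (which are near those at `t₀` by continuity), `C η ≤ 1/2`: continuation as in `TG.Tub`: the set of times in `J`
around `t₁` where `‖deriv γ'‖ ≤ V` is open and closed, so `clt` holds up to `t₁ + s`. And `γ (t₁ + s)`, `deriv γ (t₁ + s)` are near the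
values at `t₀ + s`.
-/

set_option autoImplicit false

open MeasureTheory Filter
open scoped RealInnerProductSpace Topology

namespace Pool.Agent.H68.TM

open Pool.Agent.H33.AM (E Tor pr IsPeriodic IsEL IsELFlow Ph Lc rep repE actionValues)
open Pool.Agent.H68.HD
open Pool.Agent.H68.TO (Slow Cst)
open Pool.Agent.H68.TG

variable {n : ℕ}

/-- continuation of a bound along an interval -/
private theorem dep_cont (f : ℝ → ℝ) {a b t₁ V : ℝ} (hf : ContinuousOn f (Set.Icc a b))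
    (h1 : t₁ ∈ Set.Icc a b) (hf1 : f t₁ < V)
    (H : ∀ c d : ℝ, a ≤ c → d ≤ b → t₁ ∈ Set.Icc c d → (∀ t ∈ Set.Icc c d, f t ≤ V) →
      ∀ t ∈ Set.Icc c d, f t < V) : ∀ t ∈ Set.Icc a b, f t ≤ V := by
  intro s hs
  by_contra hV
  push Not at hV
  rcases le_total t₁ s with hts | hts
  · -- forward
    have hf' : ContinuousOn f (Set.Icc t₁ s) := hf.mono (Set.Icc_subset_Icc h1.1 hs.2)
    have hcl : IsClosed (Set.Icc t₁ s ∩ f ⁻¹' {V}) :=
      hf'.preimage_isClosed_of_isClosed isClosed_Icc isClosed_singleton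
    have hK : IsCompact (Set.Icc t₁ s ∩ f ⁻¹' {V}) :=
      isCompact_Icc.of_isClosed_subset hcl Set.inter_subset_left
    obtain ⟨t2, ht2, hft2⟩ := intermediate_value_Icc hts hf' ⟨hf1.le, hV.le⟩
    obtain ⟨T, hT, hTl⟩ := hK.exists_isLeast ⟨t2, ht2, hft2⟩
    have hTV : f T = V := hT.2
    have hT1 : t₁ ∈ Set.Icc t₁ T := ⟨le_refl _, hT.1.1⟩
    have hall : ∀ t ∈ Set.Icc t₁ T, f t ≤ V := by
      intro t ht
      by_contra hlt
      push Not at hlt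
      have hf'' : ContinuousOn f (Set.Icc t₁ t) :=
        hf'.mono (Set.Icc_subset_Icc (le_refl _) (ht.2.trans hT.1.2))
      obtain ⟨t3, ht3, hft3⟩ := intermediate_value_Icc ht.1 hf'' ⟨hf1.le, hlt.le⟩
      have h3 : T ≤ t3 := hTl ⟨⟨ht3.1, ht3.2.trans (ht.2.trans hT.1.2)⟩, hft3⟩
      have h4 : t = T := le_antisymm ht.2 (h3.trans ht3.2)
      rw [h4, hTV] at hlt
      exact lt_irrefl _ hlt
    have h5 := H t₁ T h1.1 (hT.1.2.trans hs.2) hT1 hall T ⟨hT.1.1, le_refl _⟩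
    rw [hTV] at h5
    exact lt_irrefl _ h5
  · -- backward
    have hf' : ContinuousOn f (Set.Icc s t₁) := hf.mono (Set.Icc_subset_Icc hs.1 h1.2)
    have hcl : IsClosed (Set.Icc s t₁ ∩ f ⁻¹' {V}) :=
      hf'.preimage_isClosed_of_isClosed isClosed_Icc isClosed_singleton
    have hK : IsCompact (Set.Icc s t₁ ∩ f ⁻¹' {V}) :=
      isCompact_Icc.of_isClosed_subset hcl Set.inter_subset_left
    obtain ⟨t2, ht2, hft2⟩ := intermediate_value_Icc' hts hf' ⟨hf1.le, hV.le⟩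
    obtain ⟨T, hT, hTl⟩ := hK.exists_isGreatest ⟨t2, ht2, hft2⟩
    have hTV : f T = V := hT.2
    have hT1 : t₁ ∈ Set.Icc T t₁ := ⟨hT.1.2, le_refl _⟩
    have hall : ∀ t ∈ Set.Icc T t₁, f t ≤ V := by
      intro t ht
      by_contra hlt
      push Not at hlt
      have hf'' : ContinuousOn f (Set.Icc t t₁) :=
        hf'.mono (Set.Icc_subset_Icc (hT.1.1.trans ht.1) (le_refl _))
      obtain ⟨t3, ht3, hft3⟩ := intermediate_value_Icc' ht.2 hf'' ⟨hf1.le, hlt.le⟩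
      have h3 : t3 ≤ T := hTl ⟨⟨(hT.1.1.trans ht.1).trans ht3.1, ht3.2⟩, hft3⟩
      have h4 : t = T := le_antisymm (ht3.1.trans h3) ht.1
      rw [h4, hTV] at hlt
      exact lt_irrefl _ hlt
    have h5 := H T t₁ (hs.1.trans hT.1.1) h1.2 hT1 hall T ⟨le_refl _, hT.1.2⟩
    rw [hTV] at h5
    exact lt_irrefl _ h5

theorem el_dep {L : E n → E n → ℝ → ℝ} (hL : Ton L) {γ : ℝ → E n} (h : IsEL L γ) (t₀ s : ℝ)
    {ε : ℝ} (hε : 0 < ε) :
    ∃ η : ℝ, 0 < η ∧ ∀ γ' : ℝ → E n, IsEL L γ' → ∀ t₁ : ℝ, |t₁ - t₀| < η →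
      ‖γ' t₁ - γ t₀‖ < η → ‖deriv γ' t₁ - deriv γ t₀‖ < η →
      ‖γ' (t₁ + s) - γ (t₀ + s)‖ < ε ∧ ‖deriv γ' (t₁ + s) - deriv γ (t₀ + s)‖ < ε := by
  obtain ⟨hcont, helc⟩ := elg hL h
  have hγc : Continuous γ := continuous_iff_continuousAt.2 fun t => (h.1 t).continuousAt
  obtain ⟨ρ₀, hρ₀⟩ := (isCompact_Icc (a := t₀ - (|s| + 1)) (b := t₀ + (|s| + 1))
    ).exists_bound_of_continuousOn hcont.continuousOn
  obtain ⟨C, hC0, hC⟩ := clt hL (ρ₀ + 1) (2 * |s|)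
  obtain ⟨m, hm⟩ : ∃ m : ℝ, m = min 1 ε := ⟨_, rfl⟩
  have hm0 : 0 < m := by
    rw [hm]
    exact lt_min one_pos hε
  have hm1 : m ≤ 1 := by
    rw [hm]
    exact min_le_left _ _
  have hmε : m ≤ ε := by
    rw [hm]
    exact min_le_right _ _
  obtain ⟨η₁, hη₁⟩ : ∃ η₁ : ℝ, η₁ = m / (8 * (C + 1)) := ⟨_, rfl⟩
  have hC1 : 0 < C + 1 := by linarith
  have hη0 : 0 < η₁ := by
    rw [hη₁]
    positivity
  have hηC : η₁ * (8 * (C + 1)) = m := by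
    rw [hη₁]
    exact div_mul_cancel₀ _ (by positivity)
  have hCη : 0 ≤ C * η₁ := mul_nonneg hC0 hη0.le
  have hη1 : C * (4 * η₁) ≤ m / 2 := by linarith
  have hη2 : 4 * η₁ ≤ 1 / 2 := by linarith
  obtain ⟨δ₁, hδ₁, hd1⟩ := Metric.continuousAt_iff.1 (hγc.continuousAt (x := t₀)) η₁ hη0
  obtain ⟨δ₂, hδ₂, hd2⟩ := Metric.continuousAt_iff.1 (hcont.continuousAt (x := t₀)) η₁ hη0
  obtain ⟨δ₃, hδ₃, hd3⟩ := Metric.continuousAt_iff.1 (hγc.continuousAt (x := t₀ + s)) (ε / 2)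
    (half_pos hε)
  obtain ⟨δ₄, hδ₄, hd4⟩ := Metric.continuousAt_iff.1 (hcont.continuousAt (x := t₀ + s)) (ε / 2)
    (half_pos hε)
  refine ⟨min (min 1 η₁) (min (min δ₁ δ₂) (min δ₃ δ₄)),
    lt_min (lt_min one_pos hη0) (lt_min (lt_min hδ₁ hδ₂) (lt_min hδ₃ hδ₄)), ?_⟩
  intro γ' h' t₁ ht hx hv
  obtain ⟨hA, hB⟩ := lt_min_iff.1 ht
  obtain ⟨hA1, -⟩ := lt_min_iff.1 hA
  obtain ⟨hB1, hB2⟩ := lt_min_iff.1 hB
  obtain ⟨hb1, hb2⟩ := lt_min_iff.1 hB1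
  obtain ⟨hb3, hb4⟩ := lt_min_iff.1 hB2
  have hx' : ‖γ' t₁ - γ t₀‖ < η₁ := (lt_min_iff.1 (lt_min_iff.1 hx).1).2
  have hv' : ‖deriv γ' t₁ - deriv γ t₀‖ < η₁ := (lt_min_iff.1 (lt_min_iff.1 hv).1).2
  have hg1 : ‖γ t₁ - γ t₀‖ < η₁ := by
    have h1 := hd1 (x := t₁) (by rw [Real.dist_eq]; exact hb1)
    rwa [dist_eq_norm] at h1
  have hg2 : ‖deriv γ t₁ - deriv γ t₀‖ < η₁ := by
    have h1 := hd2 (x := t₁) (by rw [Real.dist_eq]; exact hb2)
    rwa [dist_eq_norm] at h1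
  have hg3 : ‖γ (t₁ + s) - γ (t₀ + s)‖ < ε / 2 := by
    have h1 := hd3 (x := t₁ + s) (by rw [Real.dist_eq, add_sub_add_right_eq_sub]; exact hb3)
    rwa [dist_eq_norm] at h1
  have hg4 : ‖deriv γ (t₁ + s) - deriv γ (t₀ + s)‖ < ε / 2 := by
    have h1 := hd4 (x := t₁ + s) (by rw [Real.dist_eq, add_sub_add_right_eq_sub]; exact hb4)
    rwa [dist_eq_norm] at h1
  have hD1 : ‖γ' t₁ - γ t₁‖ ≤ 2 * η₁ := by
    have e : γ' t₁ - γ t₁ = (γ' t₁ - γ t₀) - (γ t₁ - γ t₀) := by abel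
    rw [e]
    exact (norm_sub_le _ _).trans (by linarith)
  have hD2 : ‖deriv γ' t₁ - deriv γ t₁‖ ≤ 2 * η₁ := by
    have e : deriv γ' t₁ - deriv γ t₁ = (deriv γ' t₁ - deriv γ t₀) - (deriv γ t₁ - deriv γ t₀) := by
      abel
    rw [e]
    exact (norm_sub_le _ _).trans (by linarith)
  obtain ⟨hcont', helc'⟩ := elg hL h'
  have hs0 : 0 ≤ |s| := abs_nonneg s
  have hAt := abs_lt.1 hA1
  have ht₁ : t₁ ∈ Set.Icc (t₁ - |s|) (t₁ + |s|) := ⟨by linarith, by linarith⟩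
  have hsub : ∀ c d : ℝ, t₁ - |s| ≤ c → d ≤ t₁ + |s| → ∀ t ∈ Set.Icc c d,
      ‖deriv γ t‖ ≤ ρ₀ := fun c d hc hd t ht' =>
    hρ₀ t ⟨by linarith [ht'.1, hAt.1], by linarith [ht'.2, hAt.2]⟩
  have hkey : C * (‖γ' t₁ - γ t₁‖ + ‖deriv γ' t₁ - deriv γ t₁‖) ≤ m / 2 :=
    (mul_le_mul_of_nonneg_left (by linarith) hC0).trans hη1
  have hV : ∀ t ∈ Set.Icc (t₁ - |s|) (t₁ + |s|), ‖deriv γ' t‖ ≤ ρ₀ + 1 := by
    have hw1 : ‖deriv γ' t₁‖ < ρ₀ + 1 := by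
      have h1 := hsub _ _ le_rfl le_rfl t₁ ht₁
      have h2 : deriv γ' t₁ = (deriv γ' t₁ - deriv γ t₁) + deriv γ t₁ := by abel
      have h3 := norm_add_le (deriv γ' t₁ - deriv γ t₁) (deriv γ t₁)
      rw [← h2] at h3
      linarith
    refine dep_cont (fun t => ‖deriv γ' t‖) hcont'.norm.continuousOn ht₁ hw1 ?_
    intro c d hc hd htcd hle t htc
    have hcd : d - c ≤ 2 * |s| := by linarith
    have h1 := hC γ' (deriv γ') γ (deriv γ) c d t₁ hcd htcd (helc' c d) (helc c d) hle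
      (fun r hr => (hsub c d hc hd r hr).trans (by linarith)) t htc
    have h3 := hsub c d hc hd t htc
    have h4 : deriv γ' t = (deriv γ' t - deriv γ t) + deriv γ t := by abel
    have h5 := norm_add_le (deriv γ' t - deriv γ t) (deriv γ t)
    rw [← h4] at h5
    have h6 := norm_nonneg (γ' t - γ t)
    show ‖deriv γ' t‖ < ρ₀ + 1
    linarith
  have hts : t₁ + s ∈ Set.Icc (t₁ - |s|) (t₁ + |s|) :=
    ⟨by linarith [neg_abs_le s], by linarith [le_abs_self s]⟩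
  have hfin := hC γ' (deriv γ') γ (deriv γ) (t₁ - |s|) (t₁ + |s|) t₁ (by linarith) ht₁
    (helc' _ _) (helc _ _) hV (fun r hr => (hsub _ _ le_rfl le_rfl r hr).trans (by linarith))
    (t₁ + s) hts
  have hn1 := norm_nonneg (γ' (t₁ + s) - γ (t₁ + s))
  have hn2 := norm_nonneg (deriv γ' (t₁ + s) - deriv γ (t₁ + s))
  constructor
  · have e : γ' (t₁ + s) - γ (t₀ + s) =
        (γ' (t₁ + s) - γ (t₁ + s)) + (γ (t₁ + s) - γ (t₀ + s)) := by abel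
    rw [e]
    exact lt_of_le_of_lt (norm_add_le _ _) (by linarith)
  · have e : deriv γ' (t₁ + s) - deriv γ (t₀ + s) =
        (deriv γ' (t₁ + s) - deriv γ (t₁ + s)) + (deriv γ (t₁ + s) - deriv γ (t₀ + s)) := by abel
    rw [e]
    exact lt_of_le_of_lt (norm_add_le _ _) (by linarith)

end Pool.Agent.H68.TM
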