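import Pool.Agent.H68.TM.Def
import Pool.Agent.H68.TM.ClT
import Pool.Agent.H68.TG.Elg

/-!
# Module Uq: uniqueness of Euler-Lagrange solutions
On `[t₀ - T, t₀ + T]` both velocities are bounded (`elg`: continuous), `clt` with right hand side `0`.
-/

set_option autoImplicit false

open MeasureTheory Filter
open scoped RealInnerProductSpace Topology

namespace Pool.Agent.H68.TM

open Pool.Agent.H33.AM (E Tor pr IsPeriodic IsEL IsELFlow Ph Lc rep repE actionValues)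
open Pool.Agent.H68.HD
open Pool.Agent.H68.TO (Slow Cst)
open Pool.Agent.H68.TG

variable {n : ℕ}

theorem el_uniq {L : E n → E n → ℝ → ℝ} (hL : Ton L) {γ₁ γ₂ : ℝ → E n} (h₁ : IsEL L γ₁)
    (h₂ : IsEL L γ₂) {t₀ : ℝ} (hx : γ₁ t₀ = γ₂ t₀) (hv : deriv γ₁ t₀ = deriv γ₂ t₀) : γ₁ = γ₂ := by
  obtain ⟨c₁, e₁⟩ := elg hL h₁
  obtain ⟨c₂, e₂⟩ := elg hL h₂
  funext t
  have hT : 0 ≤ |t - t₀| := abs_nonneg _
  obtain ⟨V₁, hV₁⟩ := (isCompact_Icc (a := t₀ - |t - t₀|) (b := t₀ + |t - t₀|)).exists_bound_of_continuousOn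
    c₁.continuousOn
  obtain ⟨V₂, hV₂⟩ := (isCompact_Icc (a := t₀ - |t - t₀|) (b := t₀ + |t - t₀|)).exists_bound_of_continuousOn
    c₂.continuousOn
  obtain ⟨C, -, hC⟩ := clt hL (max V₁ V₂) (2 * |t - t₀|)
  have h3 := hC γ₁ (deriv γ₁) γ₂ (deriv γ₂) (t₀ - |t - t₀|) (t₀ + |t - t₀|) t₀ (by linarith)
    ⟨by linarith, by linarith⟩ (e₁ _ _) (e₂ _ _) (fun s hs => (hV₁ s hs).trans (le_max_left _ _))
    (fun s hs => (hV₂ s hs).trans (le_max_right _ _)) t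
    ⟨by linarith [neg_abs_le (t - t₀)], by linarith [le_abs_self (t - t₀)]⟩
  rw [hx, hv, sub_self, sub_self, norm_zero, add_zero, mul_zero] at h3
  have h4 : ‖γ₁ t - γ₂ t‖ = 0 :=
    le_antisymm (by linarith [norm_nonneg (deriv γ₁ t - deriv γ₂ t)]) (norm_nonneg _)
  exact sub_eq_zero.1 (norm_eq_zero.1 h4)

end Pool.Agent.H68.TM
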