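import Pool.Agent.H68.TM.Def
import Pool.Agent.H68.TM.Sh
import Pool.Agent.H68.TM.Uq
import Pool.Agent.H68.TM.Dep
import Pool.Agent.H33.AM.P.I1

/-!
# Module Flo: the Euler-Lagrange flow on the phase space
Choose for all `(x, v, t)` the solution `σ (x, v, t)` of `hL.flow`. `Φ s (X, v, τ) = (pr (σ (r + s)), deriv σ (r + s), τ + s)` with
`σ = σ (repE X, v, r)`, `r = rep τ`. If `γ` is a solution then by `isEL_tr` and `el_uniq`
`σ (repE (pr (γ t)), deriv γ t, rep t) = γ (· + k) + zv z` for suitable integers (`I1a: pr_repE, rep_coe`, `pr_eq_pr`). Measurability: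
`(x, v, t) ↦ (σ (x, v, t) (t + s), deriv (σ (x, v, t)) (t + s))` is continuous (`el_dep`), `measurable_repE` and the measurability of `rep`
(`AddCircle.measurable_equivIco` or as in H33/AM/P/X3), `continuous_pr` (see H33/AM/P/I1c.lean for the whole pattern).
-/

set_option autoImplicit false

open MeasureTheory Filter
open scoped RealInnerProductSpace Topology

namespace Pool.Agent.H68.TM

open Pool.Agent.H33.AM (E Tor pr IsPeriodic IsEL IsELFlow Ph Lc rep repE actionValues)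
open Pool.Agent.H68.HD
open Pool.Agent.H68.TO (Slow Cst)
open Pool.Agent.H68.TG

variable {n : ℕ}

private theorem Flo_rep (t : ℝ) : ∃ k : ℤ, rep (t : UnitAddCircle) + k = t := by
  have h := Pool.Agent.H33.AM.rep_coe (t : UnitAddCircle)
  rw [eq_comm, ← sub_eq_zero, ← AddCircle.coe_sub, AddCircle.coe_eq_zero_iff] at h
  obtain ⟨m, hm⟩ := h
  refine ⟨m, ?_⟩
  simp only [zsmul_eq_mul, mul_one] at hm
  linarith

private theorem Flo_mrep : Measurable rep := by
  unfold rep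
  exact measurable_subtype_coe.comp (AddCircle.measurableEquivIco (1 : ℝ) 0).measurable

private theorem Flo_cont {L : E n → E n → ℝ → ℝ} (hL : Ton L) {σ : E n → E n → ℝ → ℝ → E n}
    (h1 : ∀ x v t, IsEL L (σ x v t)) (h2 : ∀ x v t, σ x v t t = x)
    (h3 : ∀ x v t, deriv (σ x v t) t = v) (s : ℝ) :
    Continuous fun z : E n × E n × ℝ =>
      (σ z.1 z.2.1 z.2.2 (z.2.2 + s), deriv (σ z.1 z.2.1 z.2.2) (z.2.2 + s)) := by
  rw [Metric.continuous_iff]
  rintro ⟨x₀, v₀, t₀⟩ ε hε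
  obtain ⟨η, hη, hd⟩ := el_dep hL (h1 x₀ v₀ t₀) t₀ s hε
  refine ⟨η, hη, ?_⟩
  rintro ⟨x, v, t⟩ hz
  rw [Prod.dist_eq, Prod.dist_eq, max_lt_iff, max_lt_iff] at hz
  obtain ⟨hx, hv, ht⟩ := hz
  simp only at hx hv ht
  rw [dist_eq_norm] at hx hv
  rw [Real.dist_eq] at ht
  obtain ⟨e1, e2⟩ := hd (σ x v t) (h1 x v t) t ht (by rw [h2, h2]; exact hx)
    (by rw [h3, h3]; exact hv)
  rw [Prod.dist_eq, max_lt_iff]
  simp only
  rw [dist_eq_norm, dist_eq_norm]
  exact ⟨e1, e2⟩

theorem exists_flow {L : E n → E n → ℝ → ℝ} (hL : Ton L) :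
    ∃ Φ : ℝ → Ph n → Ph n, IsELFlow L Φ ∧ (∀ s, Measurable (Φ s)) ∧
      ∀ γ : ℝ → E n, IsEL L γ → ∀ s t : ℝ,
        Φ s (pr (γ t), deriv γ t, (t : UnitAddCircle)) =
          (pr (γ (t + s)), deriv γ (t + s), ((t + s : ℝ) : UnitAddCircle)) := by
  choose σ hσ1 hσ2 hσ3 using hL.flow
  let Φ : ℝ → Ph n → Ph n := fun s z =>
    (pr (σ (repE z.1) z.2.1 (rep z.2.2) (rep z.2.2 + s)),
      deriv (σ (repE z.1) z.2.1 (rep z.2.2)) (rep z.2.2 + s),
      z.2.2 + ((s : ℝ) : UnitAddCircle))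
  have traj : ∀ γ : ℝ → E n, IsEL L γ → ∀ s t : ℝ,
        Φ s (pr (γ t), deriv γ t, (t : UnitAddCircle)) =
          (pr (γ (t + s)), deriv γ (t + s), ((t + s : ℝ) : UnitAddCircle)) := by
    intro γ h s t
    obtain ⟨k, hk⟩ := Flo_rep t
    obtain ⟨z, hz⟩ := pr_eq_pr.1 (Pool.Agent.H33.AM.pr_repE (pr (γ t))).symm
    have h' := isEL_tr hL h z k
    have hder : ∀ u, deriv (fun u => γ (u + k) + zv z) u = deriv γ (u + k) := by
      intro u
      rw [deriv_add_const, deriv_comp_add_const]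
    have hu : σ (repE (pr (γ t))) (deriv γ t) (rep (t : UnitAddCircle)) =
        fun u => γ (u + k) + zv z := by
      refine el_uniq hL (hσ1 _ _ _) h' (t₀ := rep (t : UnitAddCircle)) ?_ ?_
      · rw [hσ2, hk]
        exact hz
      · rw [hσ3, hder, hk]
    have hrs : rep (t : UnitAddCircle) + s + k = t + s := by linarith
    simp only [Φ, hu, hder, hrs]
    rw [(pr_eq_pr (x := γ (t + s)) (y := γ (t + s) + zv z)).2 ⟨z, rfl⟩, AddCircle.coe_add]
  refine ⟨Φ, ?_, ?_, traj⟩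
  · intro x v t
    refine ⟨σ x v t, hσ1 x v t, hσ2 x v t, hσ3 x v t, fun s => ?_⟩
    have h1 := traj (σ x v t) (hσ1 x v t) s t
    rw [hσ2, hσ3] at h1
    exact h1
  · intro s
    have hm : Measurable fun z : Ph n => ((repE z.1, z.2.1, rep z.2.2) : E n × E n × ℝ) :=
      (Pool.Agent.H33.AM.measurable_repE.comp measurable_fst).prodMk
        ((measurable_fst.comp measurable_snd).prodMk
          (Flo_mrep.comp (measurable_snd.comp measurable_snd)))
    have h1 := (Flo_cont hL hσ1 hσ2 hσ3 s).measurable.comp hm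
    refine Measurable.prodMk ?_ (Measurable.prodMk ?_ ?_)
    · exact Pool.Agent.H33.AM.continuous_pr.measurable.comp (measurable_fst.comp h1)
    · exact measurable_snd.comp h1
    · exact (measurable_snd.comp measurable_snd).add_const _

end Pool.Agent.H68.TM
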