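import Pool.Agent.H68.TM.Def
import Pool.Agent.H68.TM.Flo
import Pool.Agent.H68.TG.Elg
import Pool.Agent.H33.AM.P.I2a

/-!
# Module Mem: the invariant measure of a periodic solution
As in H33/AM/P/I2a.lean (`mem_actionValues`): `μ` = image of the Haar probability measure of `ℝ/kℤ` under
`t ↦ (pr (γ t), deriv γ t, t mod 1)` (well defined: `k` is an integer; `deriv γ` is `k`-periodic); invariant under `Φ s` (third property
of `exists_flow`); `Lc L c` at this point is `L (γ t) (deriv γ t) t - ⟪c, deriv γ t⟫` by periodicity of `L`; integral over `ℝ/kℤ` as an interval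
integral divided by `k` (`AddCircle.intervalIntegral_preimage`, see I2a).
-/

set_option autoImplicit false

open MeasureTheory Filter
open scoped RealInnerProductSpace Topology

namespace Pool.Agent.H68.TM

open Pool.Agent.H33.AM (E Tor pr IsPeriodic IsEL IsELFlow Ph Lc rep repE actionValues)
open Pool.Agent.H68.HD
open Pool.Agent.H68.TO (Slow Cst)
open Pool.Agent.H68.TG

variable {n : ℕ}

private theorem mem_lift_continuous {β : Type*} [TopologicalSpace β] {f : ℝ → β} {T : ℝ}
    (h : Function.Periodic f T) (hf : Continuous f) :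
    Continuous (h.lift : AddCircle T → β) := by
  rw [(QuotientAddGroup.isQuotientMap_mk (N := AddSubgroup.zmultiples T)).continuous_iff]
  exact hf

private theorem mem_measurable_rep : Measurable rep := by
  unfold Pool.Agent.H33.AM.rep
  exact measurable_subtype_coe.comp (AddCircle.measurableEquivIco (1 : ℝ) 0).measurable

theorem mem_av {L : E n → E n → ℝ → ℝ} (hL : Ton L) {γ : ℝ → E n} (h : IsEL L γ) {k : ℕ}
    (hk : 0 < k) {z : Fin n → ℤ} (hγ : ∀ t, γ (t + k) = γ t + zv z) (c : E n) :
    (∫ t in (0 : ℝ)..k, (L (γ t) (deriv γ t) t - ⟪c, deriv γ t⟫)) / k ∈ actionValues L c := by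
  obtain ⟨Φ, hΦ, hΦm, hΦt⟩ := exists_flow hL
  generalize hT' : (k : ℝ) = T at *
  have hT : 0 < T := by rw [← hT']; exact_mod_cast hk
  haveI : Fact (0 < T) := ⟨hT⟩
  have hLc : Continuous fun z : E n × E n × ℝ => L z.1 z.2.1 z.2.2 := hL.smooth.continuous
  have hγc : Continuous γ := by
    rw [continuous_iff_continuousAt]
    intro t
    exact (h.1 t).continuousAt
  have hdc : Continuous (deriv γ) := (elg hL h).1
  -- the maps on the circle
  have hpz : ∀ t, pr (γ (t + T)) = pr (γ t) := by
    intro t
    rw [hγ]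
    exact (Pool.Agent.H33.AM.pr_eq_iff _ _).2 ⟨z, rfl⟩
  have hunit : ∀ t : ℝ, ((t + T : ℝ) : UnitAddCircle) = (t : UnitAddCircle) := by
    intro t
    rw [AddCircle.coe_add, ← hT']
    have h0 : ((k : ℝ) : UnitAddCircle) = 0 := by
      rw [AddCircle.coe_eq_zero_iff]
      exact ⟨k, by simp⟩
    rw [h0, add_zero]
  have p1 : Function.Periodic (fun t => pr (γ t)) T := hpz
  have p2 : Function.Periodic (deriv γ) T := by
    intro t
    have h1 : (fun s => γ (s + T)) = fun s => γ s + zv z := funext hγ
    have h2 : deriv (fun s => γ (s + T)) t = deriv γ (t + T) := deriv_comp_add_const γ T t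
    rw [← h2, h1, deriv_add_const]
  have p4 : Function.Periodic (fun t : ℝ => (t : UnitAddCircle)) T := hunit
  have p3 : Function.Periodic (fun t => L (γ t) (deriv γ t) t - ⟪c, deriv γ t⟫) T := by
    intro t
    have e1 := p2 t
    simp only
    rw [e1, hL.per (γ (t + T)) (γ t) (deriv γ t) (t + T) t (hpz t) (hunit t)]
  have c1 : Continuous (p1.lift : AddCircle T → Tor n) :=
    mem_lift_continuous p1 (Pool.Agent.H33.AM.continuous_pr.comp hγc)
  have c2 : Continuous (p2.lift : AddCircle T → E n) := mem_lift_continuous p2 hdc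
  have c4 : Continuous (p4.lift : AddCircle T → UnitAddCircle) :=
    mem_lift_continuous p4 (AddCircle.continuous_mk' (1 : ℝ))
  have c3 : Continuous (p3.lift : AddCircle T → ℝ) := by
    apply mem_lift_continuous p3
    exact (hLc.comp (hγc.prodMk (hdc.prodMk continuous_id))).sub
      (Continuous.inner continuous_const hdc)
  let M : AddCircle T → Ph n := fun θ => (p1.lift θ, p2.lift θ, p4.lift θ)
  have hMc : Continuous M := c1.prodMk (c2.prodMk c4)
  have hMm : Measurable M := hMc.measurable
  let ν : Measure (AddCircle T) := AddCircle.haarAddCircle (T := T)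
  have hν : IsProbabilityMeasure ν := inferInstance
  -- the translation by `s`
  have htr : ∀ s : ℝ, MeasurePreserving (fun a : AddCircle T => a + (s : AddCircle T)) ν ν :=
    fun s => measurePreserving_add_right _ _
  have hcomm : ∀ s : ℝ, Φ s ∘ M = M ∘ (fun a : AddCircle T => a + (s : AddCircle T)) := by
    intro s
    funext θ
    induction θ using QuotientAddGroup.induction_on with
    | H t =>
      have h1 := hΦt γ h s t
      simp only [Function.comp, M]
      have e1 : p1.lift ((t : ℝ) : AddCircle T) = pr (γ t) := p1.lift_coe t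
      have e2 : p2.lift ((t : ℝ) : AddCircle T) = deriv γ t := p2.lift_coe t
      have e5 : p4.lift ((t : ℝ) : AddCircle T) = (t : UnitAddCircle) := p4.lift_coe t
      have e3 : p1.lift ((t : ℝ) + (s : ℝ) : AddCircle T) = pr (γ (t + s)) := by
        rw [← AddCircle.coe_add]
        exact p1.lift_coe (t + s)
      have e4 : p2.lift ((t : ℝ) + (s : ℝ) : AddCircle T) = deriv γ (t + s) := by
        rw [← AddCircle.coe_add]
        exact p2.lift_coe (t + s)
      have e6 : p4.lift ((t : ℝ) + (s : ℝ) : AddCircle T) = ((t + s : ℝ) : UnitAddCircle) := by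
        rw [← AddCircle.coe_add]
        exact p4.lift_coe (t + s)
      refine Eq.trans ?_ (h1.trans ?_)
      · exact congrArg (Φ s) (Prod.ext e1 (Prod.ext e2 e5))
      · exact (Prod.ext e3 (Prod.ext e4 e6)).symm
  let μ : Measure (Ph n) := ν.map M
  have hμ : IsProbabilityMeasure μ := Measure.isProbabilityMeasure_map hMm.aemeasurable
  have hinv : ∀ s, MeasurePreserving (Φ s) μ μ := by
    intro s
    refine ⟨hΦm s, ?_⟩
    have e1 : Measure.map (Φ s) μ = Measure.map (Φ s ∘ M) ν :=
      Measure.map_map (hΦm s) hMm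
    rw [e1, hcomm s, ← Measure.map_map hMm (htr s).measurable, (htr s).map_eq]
  -- the function
  have hLm : Measurable (Lc L c) := by
    unfold Pool.Agent.H33.AM.Lc
    have r1 : Measurable fun z : Ph n => repE z.1 :=
      Pool.Agent.H33.AM.measurable_repE.comp measurable_fst
    have r2 : Measurable fun z : Ph n => z.2.1 := measurable_fst.comp measurable_snd
    have r3 : Measurable fun z : Ph n => rep z.2.2 :=
      mem_measurable_rep.comp (measurable_snd.comp measurable_snd)
    exact (hLc.measurable.comp (r1.prodMk (r2.prodMk r3))).sub (measurable_const.inner r2)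
  have hLM : ∀ θ, Lc L c (M θ) = p3.lift θ := by
    intro θ
    induction θ using QuotientAddGroup.induction_on with
    | H t =>
      have e1 : p1.lift ((t : ℝ) : AddCircle T) = pr (γ t) := p1.lift_coe t
      have e2 : p2.lift ((t : ℝ) : AddCircle T) = deriv γ t := p2.lift_coe t
      have e5 : p4.lift ((t : ℝ) : AddCircle T) = (t : UnitAddCircle) := p4.lift_coe t
      have e3 : p3.lift ((t : ℝ) : AddCircle T) = L (γ t) (deriv γ t) t - ⟪c, deriv γ t⟫ :=
        p3.lift_coe t
      refine Eq.trans (congrArg (Lc L c) (Prod.ext e1 (Prod.ext e2 e5) :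
        M ((t : ℝ) : AddCircle T) = (pr (γ t), deriv γ t, (t : UnitAddCircle)))) ?_
      refine Eq.trans ?_ e3.symm
      show L (repE (pr (γ t))) (deriv γ t) (rep (t : UnitAddCircle)) - ⟪c, deriv γ t⟫ = _
      rw [hL.per (repE (pr (γ t))) (γ t) (deriv γ t) (rep (t : UnitAddCircle)) t
        (Pool.Agent.H33.AM.pr_repE _) (Pool.Agent.H33.AM.rep_coe _)]
  have hint3 : Integrable (p3.lift : AddCircle T → ℝ) (AddCircle.haarAddCircle (T := T)) :=
    c3.integrable_of_hasCompactSupport (HasCompactSupport.of_compactSpace _)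
  have hLi : Integrable (Lc L c) μ := by
    rw [integrable_map_measure hLm.aestronglyMeasurable hMm.aemeasurable]
    have e1 : (Lc L c) ∘ M = p3.lift := by
      funext θ
      exact hLM θ
    rw [e1]
    exact hint3
  refine ⟨Φ, hΦ, μ, hμ, hinv, hLi, ?_⟩
  rw [integral_map hMm.aemeasurable hLm.aestronglyMeasurable]
  simp only [hLM]
  have e2 := AddCircle.intervalIntegral_preimage T 0 (p3.lift : AddCircle T → ℝ)
  have e3 : ∫ a in (0 : ℝ)..0 + T, p3.lift ((a : ℝ) : AddCircle T) =
      ∫ t in (0 : ℝ)..T, (L (γ t) (deriv γ t) t - ⟪c, deriv γ t⟫) := by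
    rw [zero_add]
    rfl
  rw [← e3, e2, AddCircle.volume_eq_smul_haarAddCircle, integral_smul_measure,
    ENNReal.toReal_ofReal hT.le, smul_eq_mul, mul_div_cancel_left₀ _ hT.ne']

end Pool.Agent.H68.TM
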