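import Pool.Agent.H68.TM.Def
import Pool.Agent.H68.TG.Pk
import Pool.Agent.H68.TG.Rpl
import Pool.Agent.H68.TG.Lb
import Pool.Agent.H68.TG.Leq
import Pool.Agent.H68.TG.Rep

/-!
# Module RpB: replacement of a unit curve with the same end points, for L itself
As `TG.rep` with `rplb` (the case `r ≤ C₂ + a` of `rpl`, in Rpl.lean): `Crv L` gives `Crv Ls` with no larger action; `δ` is `ρs`-Lipschitz with
`‖deriv δ‖ ≤ ρ` a.e. on `[0, 1]`, so `‖δ t - δ s‖ ≤ ρ |t - s|` on `[0, 1]` (`ac_ftc`), and `Ls = L` along `δ`.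
-/

set_option autoImplicit false

open MeasureTheory Filter
open scoped RealInnerProductSpace Topology

namespace Pool.Agent.H68.TM

open Pool.Agent.H33.AM (E Tor pr IsPeriodic IsEL IsELFlow Ph Lc rep repE actionValues)
open Pool.Agent.H68.HD
open Pool.Agent.H68.TO (Slow Cst)
open Pool.Agent.H68.TG

variable {n : ℕ}

private theorem RpB_meas {M : E n → E n → ℝ → ℝ}
    (hM : Continuous fun z : E n × E n × ℝ => M z.1 z.2.1 z.2.2) (c : E n) (a : ℝ)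
    {γ : ℝ → E n} (h : AbsolutelyContinuousOnInterval γ 0 1) :
    AEStronglyMeasurable (fun t => M (γ t) (deriv γ t) t - ⟪c, deriv γ t⟫ + a)
      (volume.restrict (Set.Ioc (0 : ℝ) 1)) := by
  have h1 : AEStronglyMeasurable γ (volume.restrict (Set.Ioc (0 : ℝ) 1)) := by
    have h2 : ContinuousOn γ (Set.uIcc 0 1) := h.continuousOn
    rw [Set.uIcc_of_le zero_le_one] at h2
    exact (h2.mono Set.Ioc_subset_Icc_self).aestronglyMeasurable measurableSet_Ioc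
  have h3 : AEStronglyMeasurable (deriv γ) (volume.restrict (Set.Ioc (0 : ℝ) 1)) :=
    (stronglyMeasurable_deriv γ).aestronglyMeasurable
  have h4 : AEStronglyMeasurable (fun t => M (γ t) (deriv γ t) t)
      (volume.restrict (Set.Ioc (0 : ℝ) 1)) :=
    hM.comp_aestronglyMeasurable (h1.prodMk (h3.prodMk aestronglyMeasurable_id))
  exact (h4.sub (aestronglyMeasurable_const.inner h3)).add aestronglyMeasurable_const

private theorem RpB_lo {x : ℝ} {R B a : ℝ} {c v : E n} (hc : ‖c‖ ≤ R)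
    (h : (R + 1) * ‖v‖ - B ≤ x) : a - B ≤ x - ⟪c, v⟫ + a := by
  have h1 : ⟪c, v⟫ ≤ ‖c‖ * ‖v‖ := real_inner_le_norm c v
  have h2 : ‖c‖ * ‖v‖ ≤ R * ‖v‖ := mul_le_mul_of_nonneg_right hc (norm_nonneg v)
  have h3 := norm_nonneg v
  linarith

/-- the curve for the smaller Lagrangian -/
private theorem RpB_down {L₀ M : E n → E n → ℝ → ℝ}
    (hc₀ : Continuous fun z : E n × E n × ℝ => L₀ z.1 z.2.1 z.2.2) {R B : ℝ}
    (hlo : ∀ x v t, (R + 1) * ‖v‖ - B ≤ L₀ x v t) (hM : ∀ x v t, L₀ x v t ≤ M x v t)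
    {c : E n} (hc : ‖c‖ ≤ R) {a r : ℝ} {γ : ℝ → E n} (h : Crv M c a 1 γ r) :
    ∃ r₁, Crv L₀ c a 1 γ r₁ ∧ r₁ ≤ r := by
  have hac : AbsolutelyContinuousOnInterval γ 0 1 := by simpa using h.ac
  have hI : Integrable (fun t => M (γ t) (deriv γ t) t - ⟪c, deriv γ t⟫ + a)
      (volume.restrict (Set.Ioc (0 : ℝ) 1)) := by
    have h3 := h.int
    rw [Nat.cast_one, intervalIntegrable_iff_integrableOn_Ioc_of_le zero_le_one] at h3
    exact h3
  have hm := RpB_meas hc₀ c a hac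
  have hI₀ : Integrable (fun t => L₀ (γ t) (deriv γ t) t - ⟪c, deriv γ t⟫ + a)
      (volume.restrict (Set.Ioc (0 : ℝ) 1)) := by
    refine (hI.norm.add (integrable_const |a - B|)).mono' hm (Eventually.of_forall fun t => ?_)
    have h1 := RpB_lo (a := a) hc (hlo (γ t) (deriv γ t) t)
    have h2 := hM (γ t) (deriv γ t) t
    simp only [Pi.add_apply, Real.norm_eq_abs]
    rw [abs_le]
    have h3 := le_abs_self (M (γ t) (deriv γ t) t - ⟪c, deriv γ t⟫ + a)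
    have h4 := abs_nonneg (M (γ t) (deriv γ t) t - ⟪c, deriv γ t⟫ + a)
    have h5 := neg_abs_le (a - B)
    have h6 := abs_nonneg (a - B)
    constructor <;> linarith
  refine ⟨∫ t in (0 : ℝ)..((1 : ℕ) : ℝ), (L₀ (γ t) (deriv γ t) t - ⟪c, deriv γ t⟫ + a),
    ⟨h.ac, ?_, rfl⟩, ?_⟩
  · rw [Nat.cast_one, intervalIntegrable_iff_integrableOn_Ioc_of_le zero_le_one]
    exact hI₀
  · rw [h.eq, Nat.cast_one, intervalIntegral.integral_of_le zero_le_one,
      intervalIntegral.integral_of_le zero_le_one]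
    refine integral_mono hI₀ hI fun t => ?_
    have h2 := hM (γ t) (deriv γ t) t
    simp only
    linarith

/-- change of the Lagrangian where it is equal -/
private theorem RpB_congr {L₀ M' : E n → E n → ℝ → ℝ} {c : E n} {a r : ℝ} {δ : ℝ → E n}
    (h : Crv L₀ c a 1 δ r) (he : ∀ᵐ t : ℝ, t ∈ Set.Icc (0 : ℝ) 1 →
      L₀ (δ t) (deriv δ t) t = M' (δ t) (deriv δ t) t) : Crv M' c a 1 δ r := by
  have hI : Integrable (fun t => L₀ (δ t) (deriv δ t) t - ⟪c, deriv δ t⟫ + a)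
      (volume.restrict (Set.Ioc (0 : ℝ) 1)) := by
    have h3 := h.int
    rw [Nat.cast_one, intervalIntegrable_iff_integrableOn_Ioc_of_le zero_le_one] at h3
    exact h3
  have hae : (fun t => L₀ (δ t) (deriv δ t) t - ⟪c, deriv δ t⟫ + a)
      =ᵐ[volume.restrict (Set.Ioc (0 : ℝ) 1)]
      (fun t => M' (δ t) (deriv δ t) t - ⟪c, deriv δ t⟫ + a) := by
    have h1 : ∀ᵐ t : ℝ, t ∈ Set.Ioc (0 : ℝ) 1 →
        L₀ (δ t) (deriv δ t) t - ⟪c, deriv δ t⟫ + a =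
          M' (δ t) (deriv δ t) t - ⟪c, deriv δ t⟫ + a := by
      filter_upwards [he] with t ht ht'
      rw [ht (Set.Ioc_subset_Icc_self ht')]
    exact (ae_restrict_iff' measurableSet_Ioc).2 h1
  refine ⟨h.ac, ?_, ?_⟩
  · rw [Nat.cast_one, intervalIntegrable_iff_integrableOn_Ioc_of_le zero_le_one]
    exact hI.congr hae
  · rw [h.eq, Nat.cast_one, intervalIntegral.integral_of_le zero_le_one,
      intervalIntegral.integral_of_le zero_le_one]
    exact integral_congr_ae hae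

/-- a curve with velocity bounded almost everywhere is Lipschitz -/
private theorem RpB_lip {δ : ℝ → E n} {ρ : ℝ} (hac : AbsolutelyContinuousOnInterval δ 0 1)
    (hd : ∀ᵐ t : ℝ, t ∈ Set.Icc (0 : ℝ) 1 → ‖deriv δ t‖ ≤ ρ) {s t : ℝ}
    (hs : s ∈ Set.Icc (0 : ℝ) 1) (ht : t ∈ Set.Icc (0 : ℝ) 1) :
    ‖δ t - δ s‖ ≤ ρ * |t - s| := by
  have hsub : Set.uIcc s t ⊆ Set.uIcc 0 1 := by
    rw [Set.uIcc_of_le (zero_le_one : (0 : ℝ) ≤ 1)]
    exact Set.uIcc_subset_Icc hs ht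
  rw [← ac_ftc (hac.mono hsub)]
  refine intervalIntegral.norm_integral_le_of_norm_le_const_ae ?_
  filter_upwards [hd] with x hx hx'
  have h1 : x ∈ Set.uIcc (0 : ℝ) 1 := hsub (Set.uIoc_subset_uIcc hx')
  rw [Set.uIcc_of_le (zero_le_one : (0 : ℝ) ≤ 1)] at h1
  exact hx h1

theorem rpb {L : E n → E n → ℝ → ℝ} (hL : Ton L)
    {R B K D C₀ C₁ C₂ C₃ e₀ e V ρs ρ P S U : ℝ}
    (hpk : Pk L R B K D C₀ C₁ C₂ C₃ e₀ e V ρs ρ P S U) {c : E n} (hc : ‖c‖ ≤ R) {a r : ℝ}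
    {γ : ℝ → E n} (h : Crv L c a 1 γ r) (hr : r ≤ C₂ + a) :
    ∃ (δ : ℝ → E n) (r' : ℝ), Crv L c a 1 δ r' ∧ r' ≤ r ∧ δ 0 = γ 0 ∧ δ 1 = γ 1 ∧
      ∀ s ∈ Set.Icc (0 : ℝ) 1, ∀ t ∈ Set.Icc (0 : ℝ) 1, ‖δ t - δ s‖ ≤ ρ * |t - s| := by
  obtain ⟨r₁, h₁, hr₁⟩ := RpB_down hpk.slow.cont hpk.slow.lo
    (fun x v t => ls_le_l hL hpk.hP hpk.hS hpk.hU x v t) hc h
  obtain ⟨δ, r', hδ, hr', e0, e1, -, hd⟩ := rplb hL hpk hc h₁ (hr₁.trans hr)
  refine ⟨δ, r', RpB_congr hδ ?_, hr'.trans hr₁, e0, e1, fun s hs t ht => ?_⟩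
  · filter_upwards [hd] with t ht ht'
    exact ls_eq hL hpk.hS hpk.hU (hpk.mom _ _ _ (ht ht')).le
  · have hac : AbsolutelyContinuousOnInterval δ 0 1 := by simpa using hδ.ac
    exact RpB_lip hac hd hs ht

end Pool.Agent.H68.TM
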