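import Pool.Agent.H68.TM.Def
import Pool.Agent.H68.TM.RpB
import Pool.Agent.H68.HD.AC1
import Pool.Agent.H68.HD.AC2

/-!
# Module Lp: replacement of loops
`crv_cut`: unit pieces `γ_i` with actions `s_i`, `Σ s_i = r`, `s_i ≥ -B` (`L - c · v ≥ -B` from `hB` and `‖c‖ ≤ R`), so `s_i ≤ r + k B ≤ C₂`. `rpb` (`a = 0`) for each piece:
`δ_i`. Glue: `δ t = δ_i (t - ⌊t⌋) + zv (q • z)` with `⌊t⌋ = q k + i`, `0 ≤ i < k` (`Int.ediv`, `Int.emod`). It is `ρ`-Lipschitz (on each `[j, j + 1]`, and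
continuous at the integers; add up over the integers between `s` and `t`; or `δ t - δ s` by induction), `δ (t + k) = δ t + zv z`; the action over `[0, k]` is
the sum of the actions (`intervalIntegral.sum_integral_adjacent_intervals`, derivatives agree on the open unit intervals).
-/

set_option autoImplicit false

open MeasureTheory Filter
open scoped RealInnerProductSpace Topology

namespace Pool.Agent.H68.TM

open Pool.Agent.H33.AM (E Tor pr IsPeriodic IsEL IsELFlow Ph Lc rep repE actionValues)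
open Pool.Agent.H68.HD
open Pool.Agent.H68.TO (Slow Cst)
open Pool.Agent.H68.TG

variable {n : ℕ}

/-- Gluing of curves `G j` on `[0, 1]`, `j` an integer. -/
private theorem Lp_lip {ρ : ℝ} {G : ℤ → ℝ → E n} (hG : ∀ j, G j 1 = G (j + 1) 0)
    (hd : ∀ j, ∀ s ∈ Set.Icc (0 : ℝ) 1, ∀ t ∈ Set.Icc (0 : ℝ) 1, ‖G j t - G j s‖ ≤ ρ * |t - s|)
    {δ : ℝ → E n} (hδ : ∀ t, δ t = G ⌊t⌋ (t - ⌊t⌋)) :
    (∀ (j : ℤ) (t : ℝ), (j : ℝ) ≤ t → t ≤ j + 1 → δ t = G j (t - j)) ∧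
      ∀ s t, ‖δ t - δ s‖ ≤ ρ * |t - s| := by
  have hloc : ∀ (j : ℤ) (t : ℝ), (j : ℝ) ≤ t → t ≤ j + 1 → δ t = G j (t - j) := by
    intro j t h1 h2
    rcases h2.lt_or_eq with h3 | h3
    · have h4 : ⌊t⌋ = j := Int.floor_eq_iff.2 ⟨h1, h3⟩
      rw [hδ, h4]
    · have h4 : ⌊t⌋ = j + 1 := by
        rw [h3]
        have : (j : ℝ) + 1 = ((j + 1 : ℤ) : ℝ) := by push_cast; rfl
        rw [this, Int.floor_intCast]
      rw [hδ, h4, h3]
      have h5 : (j : ℝ) + 1 - ((j + 1 : ℤ) : ℝ) = 0 := by push_cast; ring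
      have h6 : (j : ℝ) + 1 - (j : ℝ) = 1 := by ring
      rw [h5, h6, hG]
  have hstep : ∀ (j : ℤ) (s t : ℝ), (j : ℝ) ≤ s → s ≤ t → t ≤ j + 1 →
      ‖δ t - δ s‖ ≤ ρ * (t - s) := by
    intro j s t h1 h2 h3
    rw [hloc j t (h1.trans h2) h3, hloc j s h1 (h2.trans h3)]
    have h4 := hd j (s - j) ⟨by linarith, by linarith⟩ (t - j) ⟨by linarith, by linarith⟩
    have h5 : t - (j : ℝ) - (s - j) = t - s := by ring
    rw [h5, abs_of_nonneg (by linarith)] at h4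
    exact h4
  have hind : ∀ (m : ℕ) (s t : ℝ), s ≤ t → t ≤ ⌊s⌋ + 1 + m → ‖δ t - δ s‖ ≤ ρ * (t - s) := by
    intro m
    induction m with
    | zero =>
      intro s t h1 h2
      refine hstep ⌊s⌋ s t (Int.floor_le s) h1 ?_
      simpa using h2
    | succ m ih =>
      intro s t h1 h2
      rcases le_or_gt t (⌊s⌋ + 1 + m) with h3 | h3
      · exact ih s t h1 h3
      · have h4 : s ≤ (⌊s⌋ + 1 + m : ℝ) := by
          have h5 := Int.lt_floor_add_one s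
          have h6 : (0 : ℝ) ≤ m := Nat.cast_nonneg m
          linarith
        have h5 := ih s _ h4 le_rfl
        have h6 : (((⌊s⌋ + 1 + m : ℤ)) : ℝ) = (⌊s⌋ + 1 + m : ℝ) := by push_cast; rfl
        have h7 := hstep (⌊s⌋ + 1 + m) (⌊s⌋ + 1 + m : ℝ) t (by rw [h6]) h3.le (by
          rw [h6]
          push_cast at h2
          linarith)
        calc ‖δ t - δ s‖ = ‖(δ t - δ (⌊s⌋ + 1 + m : ℝ)) + (δ (⌊s⌋ + 1 + m : ℝ) - δ s)‖ := by
              congr 1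
              abel
          _ ≤ ‖δ t - δ (⌊s⌋ + 1 + m : ℝ)‖ + ‖δ (⌊s⌋ + 1 + m : ℝ) - δ s‖ := norm_add_le _ _
          _ ≤ ρ * (t - (⌊s⌋ + 1 + m : ℝ)) + ρ * ((⌊s⌋ + 1 + m : ℝ) - s) := add_le_add h7 h5
          _ = ρ * (t - s) := by ring
  have hle : ∀ s t : ℝ, s ≤ t → ‖δ t - δ s‖ ≤ ρ * (t - s) := by
    intro s t h1
    obtain ⟨m, hm⟩ := exists_nat_ge (t - s)
    refine hind m s t h1 ?_
    have h5 := Int.lt_floor_add_one s
    linarith
  refine ⟨hloc, fun s t => ?_⟩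
  rcases le_total s t with h | h
  · rw [abs_of_nonneg (by linarith)]
    exact hle s t h
  · rw [abs_of_nonpos (by linarith), norm_sub_rev]
    have h1 := hle t s h
    have h2 : -(t - s) = s - t := by ring
    rw [h2]
    exact h1

private theorem Lp_div {k : ℕ} (hk : 0 < k) (j : ℤ) :
    ((j % k).toNat + 1 < k ∧ ((j + 1) % k).toNat = (j % k).toNat + 1 ∧ (j + 1) / k = j / k) ∨
      ((j % k).toNat + 1 = k ∧ ((j + 1) % k).toNat = 0 ∧ (j + 1) / k = j / k + 1) := by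
  have hk0 : (0 : ℤ) < k := by exact_mod_cast hk
  have h1 : 0 ≤ j % k := Int.emod_nonneg j hk0.ne'
  have h2 : j % k < k := Int.emod_lt_of_pos j hk0
  have h3 : j % k + k * (j / k) = j := Int.emod_add_mul_ediv j k
  rcases lt_or_ge (j % k + 1) (k : ℤ) with h | h
  · left
    have h4 := (Int.ediv_emod_unique (a := j + 1) (b := k) (r := j % k + 1) (q := j / k) hk0).2
      ⟨by linarith, by linarith, h⟩
    refine ⟨by omega, ?_, h4.1⟩
    rw [h4.2]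
    omega
  · right
    have h5 : j % k + 1 = k := by omega
    have h4 := (Int.ediv_emod_unique (a := j + 1) (b := k) (r := 0) (q := j / k + 1) hk0).2
      ⟨by linarith, le_rfl, hk0⟩
    refine ⟨by omega, ?_, h4.1⟩
    rw [h4.2]
    rfl

private theorem Lp_glue {ρ : ℝ} {k : ℕ} (hk : 0 < k) {z : Fin n → ℤ} {γ : ℝ → E n}
    (hz : γ k = γ 0 + zv z) {d : ℕ → ℝ → E n} (h0 : ∀ i < k, d i 0 = γ i)
    (h1 : ∀ i < k, d i 1 = γ (i + 1 : ℕ))
    (hd : ∀ i < k, ∀ s ∈ Set.Icc (0 : ℝ) 1, ∀ t ∈ Set.Icc (0 : ℝ) 1,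
      ‖d i t - d i s‖ ≤ ρ * |t - s|) :
    ∃ δ : ℝ → E n, ((∀ s t, ‖δ t - δ s‖ ≤ ρ * |t - s|) ∧ ∀ t, δ (t + k) = δ t + zv z) ∧
      ∀ i < k, ∀ t : ℝ, (i : ℝ) ≤ t → t ≤ i + 1 → δ t = d i (t - i) := by
  have hk0 : (0 : ℤ) < k := by exact_mod_cast hk
  obtain ⟨G, hG⟩ : ∃ G : ℤ → ℝ → E n,
      ∀ j s, G j s = d (j % k).toNat s + zv ((j / k) • z) := ⟨_, fun _ _ => rfl⟩
  have hm : ∀ j : ℤ, (j % k).toNat < k := by
    intro j
    have h1 : 0 ≤ j % k := Int.emod_nonneg j hk0.ne'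
    have h2 : j % k < k := Int.emod_lt_of_pos j hk0
    omega
  have hmatch : ∀ j, G j 1 = G (j + 1) 0 := by
    intro j
    rw [hG, hG, h1 _ (hm j), h0 _ (hm (j + 1))]
    rcases Lp_div hk j with ⟨h2, h3, h4⟩ | ⟨h2, h3, h4⟩
    · rw [h3, h4]
    · rw [h3, h4, h2, hz, add_smul, one_smul, zv_add, Nat.cast_zero]
      abel
  have hlip : ∀ j, ∀ s ∈ Set.Icc (0 : ℝ) 1, ∀ t ∈ Set.Icc (0 : ℝ) 1,
      ‖G j t - G j s‖ ≤ ρ * |t - s| := by
    intro j s hs t ht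
    rw [hG, hG, add_sub_add_right_eq_sub]
    exact hd _ (hm j) s hs t ht
  obtain ⟨hloc, hl⟩ := Lp_lip (ρ := ρ) hmatch hlip (δ := fun t => G ⌊t⌋ (t - ⌊t⌋)) fun _ => rfl
  refine ⟨fun t => G ⌊t⌋ (t - ⌊t⌋), ⟨hl, fun t => ?_⟩, fun i hi t h2 h3 => ?_⟩
  · simp only
    have h2 : ⌊t + (k : ℝ)⌋ = ⌊t⌋ + k := Int.floor_add_natCast t k
    have h4 : (⌊t⌋ + (k : ℤ)) / k = ⌊t⌋ / k + 1 := by
      rw [Int.add_ediv_of_dvd_right (dvd_refl _), Int.ediv_self hk0.ne']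
    rw [h2, hG, hG, Int.add_emod_right, h4, add_smul, one_smul, zv_add]
    have h3 : t + (k : ℝ) - ((⌊t⌋ + k : ℤ) : ℝ) = t - ⌊t⌋ := by push_cast; ring
    rw [h3]
    abel
  · have h4 := hloc i t (by exact_mod_cast h2) (by exact_mod_cast h3)
    simp only at h4 ⊢
    rw [h4, hG]
    have h5 : ((i : ℤ) % k) = i := Int.emod_eq_of_lt (Int.natCast_nonneg i) (by exact_mod_cast hi)
    have h6 : ((i : ℤ) / k) = 0 := Int.ediv_eq_zero_of_lt (Int.natCast_nonneg i) (by exact_mod_cast hi)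
    rw [h5, h6, zero_smul, zv_zero, add_zero, Int.toNat_natCast, Int.cast_natCast]

private theorem Lp_per {L : E n → E n → ℝ → ℝ} (hper : IsPeriodic L) (x v : E n) (t : ℝ) (k : ℕ) :
    L x v (t - k) = L x v t := by
  refine hper x x v (t - k) t rfl ?_
  rw [← sub_eq_zero, ← AddCircle.coe_sub, AddCircle.coe_eq_zero_iff]
  exact ⟨-(k : ℤ), by simp⟩

theorem lp {L : E n → E n → ℝ → ℝ} (hL : Ton L)
    {R B K D C₀ C₁ C₂ C₃ e₀ e V ρs ρ P S U : ℝ}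
    (hpk : Pk L R B K D C₀ C₁ C₂ C₃ e₀ e V ρs ρ P S U)
    (hB : ∀ x v t, (R + 1) * ‖v‖ - B ≤ L x v t) {c : E n} (hc : ‖c‖ ≤ R) {k : ℕ} (hk : 0 < k)
    {γ : ℝ → E n} {r : ℝ} (h : Crv L c 0 k γ r) {z : Fin n → ℤ} (hz : γ k = γ 0 + zv z)
    (hr : r + k * B ≤ C₂) :
    ∃ δ : ℝ → E n, Pl ρ k z δ ∧
      ∫ t in (0 : ℝ)..k, (L (δ t) (deriv δ t) t - ⟪c, deriv δ t⟫) ≤ r := by
  obtain ⟨g, s, hgs, hrs⟩ := crv_cut hL.per h
  have hB1 := hpk.cst.hB
  have hlow : ∀ i < k, -B ≤ s i := by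
    intro i hi
    have hc1 := (hgs i hi).1
    have h2 : ∫ _t in (0 : ℝ)..((1 : ℕ) : ℝ), (-B) = -B := by simp
    rw [hc1.eq, ← h2]
    apply intervalIntegral.integral_mono_on (by simp) intervalIntegrable_const hc1.int
    intro t _
    have h3 := hB (g i t) (deriv (g i) t) t
    have h4 : ⟪c, deriv (g i) t⟫ ≤ ‖c‖ * ‖deriv (g i) t‖ := real_inner_le_norm _ _
    have h5 : ‖c‖ * ‖deriv (g i) t‖ ≤ R * ‖deriv (g i) t‖ :=
      mul_le_mul_of_nonneg_right hc (norm_nonneg _)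
    have h6 := norm_nonneg (deriv (g i) t)
    linarith
  have hup : ∀ i < k, s i ≤ C₂ + 0 := by
    intro i hi
    have h1 : s i + B ≤ ∑ j ∈ Finset.range k, (s j + B) :=
      Finset.single_le_sum (f := fun j => s j + B)
        (fun j hj => by have := hlow j (Finset.mem_range.1 hj); linarith)
        (Finset.mem_range.2 hi)
    rw [Finset.sum_add_distrib, ← hrs, Finset.sum_const, Finset.card_range, nsmul_eq_mul] at h1
    linarith
  have hrep : ∀ i : ℕ, ∃ (δ : ℝ → E n) (r' : ℝ), i < k → (Crv L c 0 1 δ r' ∧ r' ≤ s i ∧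
      δ 0 = g i 0 ∧ δ 1 = g i 1 ∧ ∀ s ∈ Set.Icc (0 : ℝ) 1, ∀ t ∈ Set.Icc (0 : ℝ) 1,
        ‖δ t - δ s‖ ≤ ρ * |t - s|) := by
    intro i
    by_cases hi : i < k
    · obtain ⟨δ, r', h1⟩ := rpb hL hpk hc (hgs i hi).1 (hup i hi)
      exact ⟨δ, r', fun _ => h1⟩
    · exact ⟨γ, 0, fun h => absurd h hi⟩
  choose d r' hd using hrep
  obtain ⟨δ, hδ, hloc⟩ := Lp_glue hk hz (d := d)
    (fun i hi => by rw [(hd i hi).2.2.1, (hgs i hi).2.1])
    (fun i hi => by rw [(hd i hi).2.2.2.1, (hgs i hi).2.2]) (fun i hi => (hd i hi).2.2.2.2)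
  refine ⟨δ, ⟨hδ.1, hδ.2⟩, ?_⟩
  obtain ⟨F, hF⟩ : ∃ F : ℝ → ℝ, F = fun t => L (δ t) (deriv δ t) t - ⟪c, deriv δ t⟫ := ⟨_, rfl⟩
  have hpiece : ∀ i < k, IntervalIntegrable F volume (i : ℝ) ((i + 1 : ℕ) : ℝ) ∧
      ∫ t in (i : ℝ)..((i + 1 : ℕ) : ℝ), F t = r' i := by
    intro i hi
    have hcr := (hd i hi).1
    have hle : (i : ℝ) ≤ ((i + 1 : ℕ) : ℝ) := by push_cast; linarith
    have hup1 : ∀ t : ℝ, t < ((i + 1 : ℕ) : ℝ) → t ≤ (i : ℝ) + 1 := by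
      intro t ht
      push_cast at ht
      exact ht.le
    have hdv : ∀ t ∈ Set.Ioo (i : ℝ) ((i + 1 : ℕ) : ℝ), deriv δ t = deriv (d i) (t - i) := by
      intro t ht
      have h3 : deriv δ t = deriv (fun u => d i (u - i)) t := by
        refine Filter.EventuallyEq.deriv_eq ?_
        filter_upwards [isOpen_Ioo.mem_nhds ht] with u hu
        exact hloc i hi u hu.1.le (hup1 u hu.2)
      rw [h3, deriv_comp_sub_const]
    have he : Set.EqOn (fun t => L (d i (t - i)) (deriv (d i) (t - i)) (t - i) -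
        ⟪c, deriv (d i) (t - i)⟫ + 0) F (Set.uIoo (i : ℝ) ((i + 1 : ℕ) : ℝ)) := by
      intro t ht
      rw [Set.uIoo_of_le hle] at ht
      simp only [hF, add_zero, hdv t ht, Lp_per hL.per, hloc i hi t ht.1.le (hup1 t ht.2)]
    have h4 : (0 : ℝ) + i = i := zero_add _
    have h5 : ((1 : ℕ) : ℝ) + i = ((i + 1 : ℕ) : ℝ) := by push_cast; ring
    have hi2 := hcr.int.comp_sub_right (i : ℝ)
    rw [h4, h5] at hi2
    refine ⟨hi2.congr_uIoo he, ?_⟩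
    rw [← intervalIntegral.integral_congr_uIoo he,
      intervalIntegral.integral_comp_sub_right
        (fun t => L (d i t) (deriv (d i) t) t - ⟪c, deriv (d i) t⟫ + 0) (i : ℝ), sub_self, hcr.eq]
    congr 1
    push_cast
    ring
  have hsum := intervalIntegral.sum_integral_adjacent_intervals (μ := volume) (f := F)
    (a := fun i : ℕ => (i : ℝ)) (n := k) (fun i hi => (hpiece i hi).1)
  have hgoal : ∫ t in (0 : ℝ)..k, F t ≤ r := by
    calc ∫ t in (0 : ℝ)..k, F t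
        = ∑ i ∈ Finset.range k, ∫ t in (i : ℝ)..((i + 1 : ℕ) : ℝ), F t := by
          rw [hsum, Nat.cast_zero]
      _ = ∑ i ∈ Finset.range k, r' i :=
          Finset.sum_congr rfl fun i hi => (hpiece i (Finset.mem_range.1 hi)).2
      _ ≤ ∑ i ∈ Finset.range k, s i :=
          Finset.sum_le_sum fun i hi => (hd i (Finset.mem_range.1 hi)).2.1
      _ = r := hrs.symm
  rw [hF] at hgoal
  exact hgoal

end Pool.Agent.H68.TM
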