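import Pool.Agent.H68.TM.Def
import Pool.Agent.H68.TG.Lsc

/-!
# Module Lst: lower semicontinuity of the action on [0, k]
Scaling: `M' x v t = k * M x ((1/k) • v) (k t)` is continuous and convex in `v`, `δ' s = δ (k s)` is `k ρ`-Lipschitz with derivative `k deriv δ (k s)`, and
`∫_0^1 M'(δ', deriv δ', s) ds = ∫_0^k M(δ, deriv δ, t) dt` (`intervalIntegral.mul_integral_comp_mul_left`); `TG.lsc` for `M'`.
-/

set_option autoImplicit false

open MeasureTheory Filter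
open scoped RealInnerProductSpace Topology

namespace Pool.Agent.H68.TM

open Pool.Agent.H33.AM (E Tor pr IsPeriodic IsEL IsELFlow Ph Lc rep repE actionValues)
open Pool.Agent.H68.HD
open Pool.Agent.H68.TO (Slow Cst)
open Pool.Agent.H68.TG

variable {n : ℕ}

private theorem lst_int (M : E n → E n → ℝ → ℝ) (δ : ℝ → E n) {c : ℝ} (hc : 0 < c) :
    ∫ s in (0 : ℝ)..1, c * M (δ (c * s)) (c⁻¹ • deriv (fun r => δ (c * r)) s) (c * s) =
      ∫ t in (0 : ℝ)..c, M (δ t) (deriv δ t) t := by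
  have h1 : ∀ s : ℝ, c * M (δ (c * s)) (c⁻¹ • deriv (fun r => δ (c * r)) s) (c * s) =
      c * (fun t => M (δ t) (deriv δ t) t) (c * s) := by
    intro s
    rw [deriv_comp_mul_left, smul_smul, inv_mul_cancel₀ hc.ne', one_smul]
  have h2 := intervalIntegral.mul_integral_comp_mul_left (a := 0) (b := 1)
    (f := fun t => M (δ t) (deriv δ t) t) c
  rw [mul_zero, mul_one] at h2
  rw [intervalIntegral.integral_congr fun s _ => h1 s, intervalIntegral.integral_const_mul]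
  exact h2

theorem lst {M : E n → E n → ℝ → ℝ} (hM : Continuous fun z : E n × E n × ℝ => M z.1 z.2.1 z.2.2)
    (hc : ∀ x t, ConvexOn ℝ Set.univ fun v => M x v t) {ρ : ℝ} (hρ : 0 ≤ ρ) {δ : ℕ → ℝ → E n}
    {η : ℝ → E n} (hδ : ∀ k, Lip ρ (δ k)) (hη : Lip ρ η)
    (hlim : ∀ t, Tendsto (fun k => δ k t) atTop (𝓝 (η t))) {N : ℕ} (hN : 0 < N) {m : ℝ}
    (hm : Tendsto (fun k => ∫ t in (0 : ℝ)..N, M (δ k t) (deriv (δ k) t) t) atTop (𝓝 m)) :
    ∫ t in (0 : ℝ)..N, M (η t) (deriv η t) t ≤ m := by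
  have hN' : (0 : ℝ) < N := Nat.cast_pos.2 hN
  have hlip : ∀ γ : ℝ → E n, Lip ρ γ → Lip ((N : ℝ) * ρ) fun s => γ (N * s) := by
    intro γ hγ s t
    refine (hγ (N * s) (N * t)).trans (le_of_eq ?_)
    rw [← mul_sub, abs_mul, abs_of_pos hN']
    ring
  have h1 : Continuous fun z : E n × E n × ℝ =>
      (N : ℝ) * M z.1 ((N : ℝ)⁻¹ • z.2.1) (N * z.2.2) := by
    have h2 : Continuous fun z : E n × E n × ℝ =>
        ((z.1, (N : ℝ)⁻¹ • z.2.1, (N : ℝ) * z.2.2) : E n × E n × ℝ) := by fun_prop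
    exact continuous_const.mul (hM.comp h2)
  have h3 : ∀ x t, ConvexOn ℝ Set.univ fun v : E n =>
      (N : ℝ) * M x ((N : ℝ)⁻¹ • v) (N * t) := by
    intro x t
    have h4 := (hc x (N * t)).comp_linearMap ((N : ℝ)⁻¹ • (LinearMap.id : E n →ₗ[ℝ] E n))
    rw [Set.preimage_univ] at h4
    exact h4.smul hN'.le
  have h5 := lsc (M := fun x v t => (N : ℝ) * M x ((N : ℝ)⁻¹ • v) (N * t)) h1 h3
    (mul_nonneg hN'.le hρ) (δ := fun k s => δ k (N * s)) (η := fun s => η (N * s))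
    (fun k => hlip _ (hδ k)) (hlip _ hη) (fun t => hlim (N * t)) (m := m)
    (by
      refine hm.congr fun k => ?_
      exact (lst_int M (δ k) hN').symm)
  rw [← lst_int M η hN']
  exact h5

end Pool.Agent.H68.TM
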