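import Pool.Agent.H68.TM.Def
import Pool.Agent.H68.TM.Lp
import Pool.Agent.H68.TM.Lst
import Pool.Agent.H68.TG.Arz
import Pool.Agent.H68.TG.Rg2
import Pool.Agent.H68.TO.LpI

/-!
# Module Mp: existence of a periodic minimizer
`m` = infimum of `∫_0^k L(η, η', t)` over all Lipschitz loops `η` of type `(k, z)` (`Pl ρ' k z η`, `ρ' ≥ 0`): bounded below, nonempty by `lp` for `γ`. For loops of this type
`∫ ⟪c, η'⟫ = ⟪c, zv z⟫`. A minimizing sequence with actions `≤ r` (with `c`) can be replaced by `ρ`-Lipschitz loops (`lp`; Lipschitz curves are `Crv`, cf.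
`lpi_crv`, on `[0, k]`), translated by integer vectors so that `‖δ_j 0‖ ≤ √n`; a subsequence with `δ_j 0 → x`, then `arz` for `δ_j - δ_j 0 + x` or `arz` after
subtracting the start; limit `δ` is `Pl ρ k z`, `lst`.
-/

set_option autoImplicit false

open MeasureTheory Filter
open scoped RealInnerProductSpace Topology

namespace Pool.Agent.H68.TM

open Pool.Agent.H33.AM (E Tor pr IsPeriodic IsEL IsELFlow Ph Lc rep repE actionValues)
open Pool.Agent.H68.HD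
open Pool.Agent.H68.TO (Slow Cst)
open Pool.Agent.H68.TG

variable {n : ℕ}

private theorem mp_lip {δ : ℝ → E n} {ρ : ℝ} (hρ : 0 ≤ ρ) (hδ : Lip ρ δ) :
    LipschitzWith ⟨ρ, hρ⟩ δ := by
  refine LipschitzWith.of_dist_le_mul fun x y => ?_
  rw [dist_eq_norm, Real.dist_eq]
  exact hδ y x

private theorem mp_int {M : E n → E n → ℝ → ℝ}
    (hM : Continuous fun z : E n × E n × ℝ => M z.1 z.2.1 z.2.2) {δ : ℝ → E n} {ρ : ℝ} (hρ : 0 ≤ ρ)
    (hδ : Lip ρ δ) (k : ℕ) :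
    IntervalIntegrable (fun t => M (δ t) (deriv δ t) t) volume 0 k := by
  have hc : Continuous δ := (mp_lip hρ hδ).continuous
  have hmeas : Measurable fun t => M (δ t) (deriv δ t) t :=
    hM.measurable.comp (hc.measurable.prodMk ((measurable_deriv δ).prodMk measurable_id))
  have hK : IsCompact ((δ '' Set.Icc 0 (k : ℝ)) ×ˢ
      (Metric.closedBall (0 : E n) ρ ×ˢ Set.Icc (0 : ℝ) k)) :=
    (isCompact_Icc.image hc).prod ((isCompact_closedBall _ _).prod isCompact_Icc)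
  obtain ⟨C, hC⟩ := hK.exists_bound_of_continuousOn hM.continuousOn
  rw [intervalIntegrable_iff_integrableOn_Icc_of_le (Nat.cast_nonneg k)]
  refine Measure.integrableOn_of_bounded (M := C) (by simp) hmeas.aestronglyMeasurable ?_
  rw [ae_restrict_iff' measurableSet_Icc]
  refine Filter.Eventually.of_forall fun t ht => ?_
  refine hC (δ t, deriv δ t, t) ⟨⟨t, ht, rfl⟩, ?_, ht⟩
  rw [Metric.mem_closedBall, dist_zero_right]
  exact Pool.Agent.H68.TO.lpi_deriv hρ hδ t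

private theorem mp_end {δ : ℝ → E n} {ρ : ℝ} {k : ℕ} {z : Fin n → ℤ} (h : Pl ρ k z δ) :
    δ k = δ 0 + zv z := by
  have h1 := h.2 0
  rwa [zero_add] at h1

private theorem mp_inner {δ : ℝ → E n} {ρ : ℝ} (hρ : 0 ≤ ρ) {k : ℕ} {z : Fin n → ℤ}
    (h : Pl ρ k z δ) (c : E n) :
    IntervalIntegrable (fun t => ⟪c, deriv δ t⟫) volume 0 k ∧
      ∫ t in (0 : ℝ)..k, ⟪c, deriv δ t⟫ = ⟪c, zv z⟫ := by
  have hac : AbsolutelyContinuousOnInterval δ 0 k :=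
    (mp_lip hρ h.1).lipschitzOnWith.absolutelyContinuousOnInterval
  have h2 : IntervalIntegrable (deriv δ) volume 0 k := ac_int hac
  refine ⟨?_, ?_⟩
  · rw [intervalIntegrable_iff] at h2 ⊢
    exact Integrable.const_inner c h2
  · have h5 := (innerSL ℝ c).intervalIntegral_comp_comm h2
    rw [ac_ftc hac, mp_end h, add_sub_cancel_left] at h5
    exact h5

private theorem mp_act {M : E n → E n → ℝ → ℝ}
    (hM : Continuous fun z : E n × E n × ℝ => M z.1 z.2.1 z.2.2) {δ : ℝ → E n} {ρ : ℝ} (hρ : 0 ≤ ρ)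
    {k : ℕ} {z : Fin n → ℤ} (h : Pl ρ k z δ) (c : E n) :
    ∫ t in (0 : ℝ)..k, (M (δ t) (deriv δ t) t - ⟪c, deriv δ t⟫) =
      (∫ t in (0 : ℝ)..k, M (δ t) (deriv δ t) t) - ⟪c, zv z⟫ := by
  rw [intervalIntegral.integral_sub (mp_int hM hρ h.1 k) (mp_inner hρ h c).1, (mp_inner hρ h c).2]

private theorem mp_crv {M : E n → E n → ℝ → ℝ}
    (hM : Continuous fun z : E n × E n × ℝ => M z.1 z.2.1 z.2.2) {δ : ℝ → E n} {ρ : ℝ} (hρ : 0 ≤ ρ)
    {k : ℕ} {z : Fin n → ℤ} (h : Pl ρ k z δ) (c : E n) :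
    Crv M c 0 k δ ((∫ t in (0 : ℝ)..k, M (δ t) (deriv δ t) t) - ⟪c, zv z⟫) := by
  have hac : AbsolutelyContinuousOnInterval δ 0 k :=
    (mp_lip hρ h.1).lipschitzOnWith.absolutelyContinuousOnInterval
  refine ⟨hac, ?_, ?_⟩
  · exact ((mp_int hM hρ h.1 k).sub (mp_inner hρ h c).1).add intervalIntegrable_const
  · simp only [add_zero]
    rw [mp_act hM hρ h c]

private theorem mp_trans {L : E n → E n → ℝ → ℝ} (hper : IsPeriodic L) {δ : ℝ → E n} {ρ : ℝ}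
    {k : ℕ} {z : Fin n → ℤ} (h : Pl ρ k z δ) (w : Fin n → ℤ) :
    Pl ρ k z (fun t => δ t + zv w) ∧
      ∫ t in (0 : ℝ)..k, L (δ t + zv w) (deriv (fun t => δ t + zv w) t) t =
        ∫ t in (0 : ℝ)..k, L (δ t) (deriv δ t) t := by
  refine ⟨⟨fun s t => ?_, fun t => ?_⟩, ?_⟩
  · rw [add_sub_add_right_eq_sub]
    exact h.1 s t
  · show δ (t + k) + zv w = δ t + zv w + zv z
    rw [h.2 t]
    abel
  · refine intervalIntegral.integral_congr fun t _ => ?_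
    show L (δ t + zv w) (deriv (fun t => δ t + zv w) t) t = L (δ t) (deriv δ t) t
    rw [deriv_add_const]
    exact (hper _ _ _ _ _ (pr_eq_pr.2 ⟨w, rfl⟩) rfl).symm

theorem mp {L : E n → E n → ℝ → ℝ} (hL : Ton L)
    {R B K D C₀ C₁ C₂ C₃ e₀ e V ρs ρ P S U : ℝ}
    (hpk : Pk L R B K D C₀ C₁ C₂ C₃ e₀ e V ρs ρ P S U)
    (hB : ∀ x v t, (R + 1) * ‖v‖ - B ≤ L x v t) {c : E n} (hc : ‖c‖ ≤ R) {k : ℕ} (hk : 0 < k)
    {γ : ℝ → E n} {r : ℝ} (h : Crv L c 0 k γ r) {z : Fin n → ℤ} (hz : γ k = γ 0 + zv z)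
    (hr : r + k * B ≤ C₂) :
    ∃ δ : ℝ → E n, Pl ρ k z δ ∧
      ∫ t in (0 : ℝ)..k, (L (δ t) (deriv δ t) t - ⟪c, deriv δ t⟫) ≤ r ∧
      ∀ (η : ℝ → E n) (ρ' : ℝ), 0 ≤ ρ' → Pl ρ' k z η →
        ∫ t in (0 : ℝ)..k, L (δ t) (deriv δ t) t ≤ ∫ t in (0 : ℝ)..k, L (η t) (deriv η t) t := by
  have hLc : Continuous fun z : E n × E n × ℝ => L z.1 z.2.1 z.2.2 := hL.smooth.continuous
  have hρ : 0 ≤ ρ := zero_le_one.trans hpk.hρ1
  have hR : 0 ≤ R := hpk.cst.hR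
  obtain ⟨δ₀, hδ₀, hr₀⟩ := lp hL hpk hB hc hk h hz hr
  rw [mp_act hLc hρ hδ₀ c] at hr₀
  -- the infimum
  obtain ⟨A, hA⟩ : ∃ A : Set ℝ, A = {a | ∃ (η : ℝ → E n) (ρ' : ℝ), 0 ≤ ρ' ∧ Pl ρ' k z η ∧
    a = ∫ t in (0 : ℝ)..k, L (η t) (deriv η t) t} := ⟨_, rfl⟩
  have hAbd : BddBelow A := by
    refine ⟨-(k * B), ?_⟩
    rw [hA]
    rintro a ⟨η, ρ', hρ', hη, rfl⟩
    have h1 : ∫ t in (0 : ℝ)..k, (-B) ≤ ∫ t in (0 : ℝ)..k, L (η t) (deriv η t) t := by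
      refine intervalIntegral.integral_mono_on (Nat.cast_nonneg k) intervalIntegrable_const
        (mp_int hLc hρ' hη.1 k) fun t _ => ?_
      have h2 := hB (η t) (deriv η t) t
      have h3 : 0 ≤ (R + 1) * ‖deriv η t‖ := by positivity
      linarith
    rw [intervalIntegral.integral_const, sub_zero, smul_eq_mul] at h1
    linarith
  have hAne : A.Nonempty := by
    refine ⟨∫ t in (0 : ℝ)..k, L (δ₀ t) (deriv δ₀ t) t, ?_⟩
    rw [hA]
    exact ⟨δ₀, ρ, hρ, hδ₀, rfl⟩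
  have hmin : ∀ (η : ℝ → E n) (ρ' : ℝ), 0 ≤ ρ' → Pl ρ' k z η →
      sInf A ≤ ∫ t in (0 : ℝ)..k, L (η t) (deriv η t) t := by
    intro η ρ' hρ' hη
    refine csInf_le hAbd ?_
    rw [hA]
    exact ⟨η, ρ', hρ', hη, rfl⟩
  -- a minimizing sequence of `ρ`-Lipschitz loops which start near the origin
  have hseq : ∀ j : ℕ, ∃ δ : ℝ → E n, Pl ρ k z δ ∧ ‖δ 0‖ ≤ Real.sqrt n ∧
      ∫ t in (0 : ℝ)..k, L (δ t) (deriv δ t) t < sInf A + 1 / ((j : ℝ) + 1) := by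
    intro j
    have hj : sInf A < sInf A + 1 / ((j : ℝ) + 1) := by
      have : (0 : ℝ) < 1 / ((j : ℝ) + 1) := by positivity
      linarith
    obtain ⟨a, haA, ha⟩ := exists_lt_of_csInf_lt hAne hj
    rw [hA] at haA
    obtain ⟨η₀, ρ₀, hρ₀, hη₀, rfl⟩ := haA
    obtain ⟨η, ρ', hρ', hη, h1, h2⟩ : ∃ (η : ℝ → E n) (ρ' : ℝ), 0 ≤ ρ' ∧ Pl ρ' k z η ∧
        ∫ t in (0 : ℝ)..k, L (η t) (deriv η t) t < sInf A + 1 / ((j : ℝ) + 1) ∧
        ∫ t in (0 : ℝ)..k, L (η t) (deriv η t) t ≤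
          ∫ t in (0 : ℝ)..k, L (δ₀ t) (deriv δ₀ t) t := by
      rcases le_total (∫ t in (0 : ℝ)..k, L (η₀ t) (deriv η₀ t) t)
        (∫ t in (0 : ℝ)..k, L (δ₀ t) (deriv δ₀ t) t) with h3 | h3
      · exact ⟨η₀, ρ₀, hρ₀, hη₀, ha, h3⟩
      · exact ⟨δ₀, ρ, hρ, hδ₀, h3.trans_lt ha, le_rfl⟩
    obtain ⟨δ, hδ, hδ2⟩ := lp hL hpk hB hc hk (mp_crv hLc hρ' hη c) (mp_end hη)
      (by linarith)
    rw [mp_act hLc hρ hδ c] at hδ2
    obtain ⟨w, hw, -⟩ := exists_near (δ 0)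
    obtain ⟨h4, h5⟩ := mp_trans hL.per hδ w
    refine ⟨_, h4, hw, ?_⟩
    rw [h5]
    linarith
  choose δ hδ hδ0 hδm using hseq
  -- a subsequence with convergent starts
  have hK : IsCompact (Metric.closedBall (0 : E n) (Real.sqrt n)) := isCompact_closedBall _ _
  obtain ⟨x, -, ψ, hψ, hx⟩ := hK.tendsto_subseq (x := fun j => δ j 0) fun j => by
    rw [Metric.mem_closedBall, dist_zero_right]
    exact hδ0 j
  obtain ⟨φ, hφ, η, hη, hlim⟩ := arz (ρ := ρ) hρ (δ := fun j t => δ (ψ j) t - δ (ψ j) 0 + x)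
    (x := x) (fun j s t => by
      have h1 : δ (ψ j) t - δ (ψ j) 0 + x - (δ (ψ j) s - δ (ψ j) 0 + x) =
          δ (ψ j) t - δ (ψ j) s := by abel
      rw [h1]
      exact (hδ (ψ j)).1 s t) (fun j => by
      show δ (ψ j) 0 - δ (ψ j) 0 + x = x
      rw [sub_self, zero_add])
  have hlim' : ∀ t, Tendsto (fun j => δ (ψ (φ j)) t) atTop (𝓝 (η t)) := by
    intro t
    have h1 : Tendsto (fun j => δ (ψ (φ j)) 0) atTop (𝓝 x) := hx.comp hφ.tendsto_atTop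
    have h2 := ((hlim t).add h1).sub_const x
    have h3 : η t + x - x = η t := by abel
    rw [h3] at h2
    refine h2.congr fun j => ?_
    show δ (ψ (φ j)) t - δ (ψ (φ j)) 0 + x + δ (ψ (φ j)) 0 - x = δ (ψ (φ j)) t
    abel
  have hηP : Pl ρ k z η := by
    refine ⟨hη, fun t => ?_⟩
    have h1 := hlim' (t + k)
    have h2 : Tendsto (fun j => δ (ψ (φ j)) (t + k)) atTop (𝓝 (η t + zv z)) := by
      refine ((hlim' t).add_const (zv z)).congr fun j => ?_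
      exact ((hδ (ψ (φ j))).2 t).symm
    exact tendsto_nhds_unique h1 h2
  have hmt : Tendsto (fun j => ∫ t in (0 : ℝ)..k, L (δ (ψ (φ j)) t) (deriv (δ (ψ (φ j))) t) t)
      atTop (𝓝 (sInf A)) := by
    have h1 : Tendsto (fun j => ∫ t in (0 : ℝ)..k, L (δ j t) (deriv (δ j) t) t) atTop
        (𝓝 (sInf A)) := by
      have h2 : Tendsto (fun j : ℕ => sInf A + 1 / ((j : ℝ) + 1)) atTop (𝓝 (sInf A)) := by
        have h3 := (tendsto_one_div_add_atTop_nhds_zero_nat (𝕜 := ℝ)).const_add (sInf A)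
        rwa [add_zero] at h3
      exact tendsto_of_tendsto_of_tendsto_of_le_of_le tendsto_const_nhds h2
        (fun j => hmin (δ j) ρ hρ (hδ j)) fun j => (hδm j).le
    exact h1.comp (hψ.tendsto_atTop.comp hφ.tendsto_atTop)
  have hfin : ∫ t in (0 : ℝ)..k, L (η t) (deriv η t) t ≤ sInf A :=
    lst hLc (fun x t => (sconv hL x t).convexOn) hρ (δ := fun j => δ (ψ (φ j)))
      (fun j => (hδ (ψ (φ j))).1) hη hlim' hk hmt
  refine ⟨η, hηP, ?_, fun η' ρ' hρ' hη' => hfin.trans (hmin η' ρ' hρ' hη')⟩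
  rw [mp_act hLc hρ hηP c]
  have h1 := hmin δ₀ ρ hρ hδ₀
  linarith

end Pool.Agent.H68.TM
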