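import Pool.Agent.H68.TM.Gem
import Pool.Agent.H68.TM.Mem
import Pool.Agent.H68.TM.Mp
import Pool.Agent.H68.TM.IsE
import Pool.Agent.H68.TG.Sl

/-!
# Main theorem of the project TM: Mather's alpha function by invariant measures and by closed curves
`alpha' = alpha`: both are minus infima. `av_ge`: the values of invariant measures are at least `-alpha L c`. Conversely, for `ε > 0` take a
loop `γ` of period `k` with mean `< sInf + ε` (`lm_bdd`), `R = ‖c‖`, `B` and, with `m = r + k B`, the constants of `slm` (Sl.lean: `slm` gives `B` first, then for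
every `m` a package with `m ≤ C₂`); `mp` gives a periodic minimizer `δ` with no larger action, `ise`, `mem_av`: its mean is a value of an invariant
measure. So the infimum over the invariant measures is at most `sInf + ε`. The Aubry sets: the definitions agree once the alpha functions do.
-/

set_option autoImplicit false

open MeasureTheory Filter
open scoped RealInnerProductSpace Topology

namespace Pool.Agent.H68.TM

open Pool.Agent.H33.AM (E Tor pr IsPeriodic IsEL)
open Pool.Agent.H68.TG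

variable {n : ℕ}

private theorem Al_key {L : E n → E n → ℝ → ℝ} (hL : Ton L) (c : E n) {a : ℝ}
    (ha : a ∈ Pool.Agent.H68.HD.loopMeans L c) :
    ∃ b ∈ Pool.Agent.H33.AM.actionValues L c, b ≤ a := by
  obtain ⟨k, γ, hk, hac, hpr, hint, rfl⟩ := ha
  obtain ⟨B, -, hB, hpk⟩ := slm hL (norm_nonneg c)
  obtain ⟨r, hr⟩ : ∃ r : ℝ, r = ∫ t in (0 : ℝ)..k, (L (γ t) (deriv γ t) t - ⟪c, deriv γ t⟫) :=
    ⟨_, rfl⟩
  obtain ⟨K, D, C₀, C₁, C₂, C₃, e₀, e, V, ρs, ρ, P, S, U, hp, hm⟩ := hpk (r + k * B)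
  obtain ⟨z, hz⟩ := Pool.Agent.H68.HD.pr_eq_pr.1 hpr
  have hcrv : Pool.Agent.H68.HD.Crv L c 0 k γ r := by
    refine ⟨hac, ?_, ?_⟩
    · simpa only [add_zero] using hint
    · simpa only [add_zero] using hr
  obtain ⟨δ, hδ, hact, hmin⟩ := mp hL hp hB le_rfl hk hcrv hz hm
  have hρ : 0 ≤ ρ := zero_le_one.trans hp.hρ1
  refine ⟨_, mem_av hL (ise hL hk hρ hδ hmin) hk hδ.2 c, ?_⟩
  rw [← hr]
  exact div_le_div_of_nonneg_right hact (Nat.cast_nonneg k)

theorem alpha_eq {L : E n → E n → ℝ → ℝ} (hL : Ton L) (c : E n) :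
    Pool.Agent.H33.AM.alpha L c = Pool.Agent.H68.HD.alpha L c := by
  obtain ⟨-, hne⟩ := lm_bdd hL c
  have hbd : ∀ b ∈ Pool.Agent.H33.AM.actionValues L c, sInf (Pool.Agent.H68.HD.loopMeans L c) ≤ b := by
    intro b hb
    have h1 := av_ge hL c hb
    unfold Pool.Agent.H68.HD.alpha at h1
    rwa [neg_neg] at h1
  have hne' : (Pool.Agent.H33.AM.actionValues L c).Nonempty := by
    obtain ⟨a, ha⟩ := hne
    obtain ⟨b, hb, -⟩ := Al_key hL c ha
    exact ⟨b, hb⟩
  have hle : sInf (Pool.Agent.H33.AM.actionValues L c) ≤ sInf (Pool.Agent.H68.HD.loopMeans L c) := by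
    refine le_csInf hne fun a ha => ?_
    obtain ⟨b, hb, hba⟩ := Al_key hL c ha
    exact (csInf_le ⟨_, hbd⟩ hb).trans hba
  have hge := le_csInf hne' hbd
  unfold Pool.Agent.H33.AM.alpha Pool.Agent.H68.HD.alpha
  rw [le_antisymm hle hge]

theorem aubry_eq {L : E n → E n → ℝ → ℝ} (hL : Ton L) (c : E n) :
    Pool.Agent.H33.AM.aubry L c = Pool.Agent.H68.HD.aubry L c := by
  have h := alpha_eq hL c
  have hc : ∀ (k : ℕ) (x y : Tor n), Pool.Agent.H33.AM.curveActions L c k x y
      = Pool.Agent.H68.HD.curveActions L c k x y := by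
    intro k x y
    unfold Pool.Agent.H33.AM.curveActions Pool.Agent.H68.HD.curveActions
    rw [h]
  unfold Pool.Agent.H33.AM.aubry Pool.Agent.H68.HD.aubry Pool.Agent.H33.AM.peierls
    Pool.Agent.H68.HD.peierls
  simp only [hc]

end Pool.Agent.H68.TM
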