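import Pool.Agent.H68.TG.Def

/-!
# Module Def: loops
-/

set_option autoImplicit false

open MeasureTheory Filter
open scoped RealInnerProductSpace Topology

namespace Pool.Agent.H68.TM

open Pool.Agent.H33.AM (E Tor pr IsPeriodic IsEL IsELFlow Ph Lc rep repE actionValues)
open Pool.Agent.H68.HD
open Pool.Agent.H68.TO (Slow Cst)
open Pool.Agent.H68.TG

variable {n : ℕ}

/-- `δ` is a `ρ`-Lipschitz curve which is closed with period `k` modulo the integer vector `z`. -/
def Pl (ρ : ℝ) (k : ℕ) (z : Fin n → ℤ) (δ : ℝ → E n) : Prop :=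
  Lip ρ δ ∧ ∀ t, δ (t + k) = δ t + zv z

end Pool.Agent.H68.TM
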