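import Pool.Agent.H68.TM.Def
import Pool.Agent.H68.TG.Elg
import Pool.Agent.H68.TO.Bd
import Pool.Agent.H68.HD.AC1

/-!
# Module Orb: lower bound of the action along orbits
`L - c · v ≥ -B` (`hL.sup (‖c‖)`), so `loopMeans` is bounded below by `-B` and every loop has action `≥ -k α` (`α = alpha L c`, `csInf_le`; the set contains
constant loops). For a solution `γ` and `k ≥ 2`: `∫_τ^{τ+k} ≥ -B + ∫_1^k - B` (`0 ≤ τ ≤ 1`), and the curve `γ (· + 1)` on `[0, k - 1]`
(periodicity of `L` in `t`) followed by a straight line of length `≤ √n` in time `1` to `γ 1 + zv z` (`exists_near`; cost `≤ C₀` by `TO.bd`; concatenation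
`crv_cat`; `C¹` curves are absolutely continuous) is a loop of period `k`. `k = 0, 1`: `≥ -B k`. `C = 2 B + C₀ + |α| + ...`.
-/

set_option autoImplicit false

open MeasureTheory Filter
open scoped RealInnerProductSpace Topology

namespace Pool.Agent.H68.TM

open Pool.Agent.H33.AM (E Tor pr IsPeriodic IsEL IsELFlow Ph Lc rep repE actionValues)
open Pool.Agent.H68.HD
open Pool.Agent.H68.TO (Slow Cst)
open Pool.Agent.H68.TG

variable {n : ℕ}

private theorem orb_lo {L : E n → E n → ℝ → ℝ} (hL : Ton L) (c : E n) :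
    ∃ B : ℝ, 0 ≤ B ∧ ∀ x v t, -B ≤ L x v t - ⟪c, v⟫ := by
  obtain ⟨b, hb⟩ := hL.sup ‖c‖
  refine ⟨max b 0, le_max_right _ _, fun x v t => ?_⟩
  have h1 := hb x v t
  have h2 := real_inner_le_norm c v
  have h3 := le_max_left b 0
  linarith

private theorem orb_fc {L : E n → E n → ℝ → ℝ} (hL : Ton L) (c : E n) {γ : ℝ → E n}
    (hd : ∀ t, DifferentiableAt ℝ γ t) (hc : Continuous (deriv γ)) :
    Continuous fun t => L (γ t) (deriv γ t) t - ⟪c, deriv γ t⟫ := by
  have hγ : Continuous γ := continuous_iff_continuousAt.2 fun t => (hd t).continuousAt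
  exact (hL.smooth.continuous.comp (hγ.prodMk (hc.prodMk continuous_id))).sub
    (continuous_const.inner hc)

private theorem orb_crv {L : E n → E n → ℝ → ℝ} (hL : Ton L) (c : E n) {γ : ℝ → E n}
    (hd : ∀ t, DifferentiableAt ℝ γ t) (hc : Continuous (deriv γ)) (k : ℕ) :
    Crv L c 0 k γ (∫ t in (0 : ℝ)..k, (L (γ t) (deriv γ t) t - ⟪c, deriv γ t⟫)) := by
  refine ⟨?_, ?_, ?_⟩
  · have h1 := ac_integral (w := deriv γ) (a := 0) (b := (k : ℝ)) (hc.intervalIntegrable _ _) (γ 0)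
    have h2 : (fun t => γ 0 + ∫ s in (0 : ℝ)..t, deriv γ s) = γ := by
      funext t
      rw [intervalIntegral.integral_deriv_eq_sub (fun x _ => hd x) (hc.intervalIntegrable _ _)]
      abel
    rwa [h2] at h1
  · simp only [add_zero]
    exact (orb_fc hL c hd hc).intervalIntegrable _ _
  · simp only [add_zero]

private theorem orb_mem {L : E n → E n → ℝ → ℝ} {c : E n} {k : ℕ} {γ : ℝ → E n} {r : ℝ}
    (hk : 0 < k) (h : Crv L c 0 k γ r) (hp : pr (γ 0) = pr (γ k)) : r / k ∈ loopMeans L c := by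
  refine ⟨k, γ, hk, h.ac, hp, ?_, ?_⟩
  · simpa only [add_zero] using h.int
  · rw [h.eq]
    simp only [add_zero]

theorem lm_bdd {L : E n → E n → ℝ → ℝ} (hL : Ton L) (c : E n) :
    BddBelow (loopMeans L c) ∧ (loopMeans L c).Nonempty := by
  obtain ⟨B, hB0, hB⟩ := orb_lo hL c
  constructor
  · refine ⟨-B, ?_⟩
    rintro a ⟨k, γ, hk, -, -, hint, rfl⟩
    have hk' : (0 : ℝ) < k := Nat.cast_pos.2 hk
    rw [le_div_iff₀ hk']
    have h1 : ∫ _ in (0 : ℝ)..k, (-B) ≤
        ∫ t in (0 : ℝ)..k, (L (γ t) (deriv γ t) t - ⟪c, deriv γ t⟫) :=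
      intervalIntegral.integral_mono_on hk'.le intervalIntegrable_const hint
        fun t _ => hB _ _ _
    rw [intervalIntegral.integral_const, smul_eq_mul, sub_zero] at h1
    linarith
  · have hd : ∀ t, DifferentiableAt ℝ (fun _ : ℝ => (0 : E n)) t := fun t =>
      differentiableAt_const _
    have hc : Continuous (deriv fun _ : ℝ => (0 : E n)) := by
      have h1 : deriv (fun _ : ℝ => (0 : E n)) = fun _ => 0 := funext fun t => deriv_const _ _
      rw [h1]
      exact continuous_const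
    exact ⟨_, orb_mem one_pos (orb_crv hL c hd hc 1) rfl⟩

/-- The action of a solution over `[1, k]`. -/
private theorem orb_int {L : E n → E n → ℝ → ℝ} (hL : Ton L) (c : E n) :
    ∃ C : ℝ, 0 ≤ C ∧ ∀ γ : ℝ → E n, (∀ t, DifferentiableAt ℝ γ t) → Continuous (deriv γ) →
      ∀ m : ℕ, -((m + 1 : ℕ) * alpha L c) - C ≤
        ∫ t in (1 : ℝ)..(m + 1), (L (γ t) (deriv γ t) t - ⟪c, deriv γ t⟫) := by
  obtain ⟨A, hA0, hA⟩ := Pool.Agent.H68.TO.bd hL.per hL.smooth.continuous (Real.sqrt n)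
  refine ⟨A + ‖c‖ * Real.sqrt n, by positivity, fun γ hd hc m => ?_⟩
  -- the shifted curve
  obtain ⟨g, hg⟩ : ∃ g : ℝ → E n, g = fun t => γ (t + 1) := ⟨_, rfl⟩
  have hgd : ∀ t, deriv g t = deriv γ (t + 1) := fun t => by
    rw [hg]
    exact deriv_comp_add_const γ 1 t
  have hgD : ∀ t, DifferentiableAt ℝ g t := fun t => by
    rw [hg]
    exact (hd (t + 1)).comp t (differentiableAt_id.add_const 1)
  have hgc : Continuous (deriv g) := by
    have h1 : deriv g = fun t => deriv γ (t + 1) := funext hgd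
    rw [h1]
    exact hc.comp (continuous_id.add continuous_const)
  have hc1 := orb_crv hL c hgD hgc m
  -- the straight line
  obtain ⟨z, hz, -⟩ := exists_near (g 0 - g m)
  obtain ⟨u, hu⟩ : ∃ u : E n, u = g 0 - g m + zv z := ⟨_, rfl⟩
  rw [← hu] at hz
  obtain ⟨d, hdd⟩ : ∃ d : ℝ → E n, d = fun t => g m + t • u := ⟨_, rfl⟩
  have hdH : ∀ t, HasDerivAt d u t := fun t => by
    rw [hdd]
    have h1 := ((hasDerivAt_id t).smul_const u).const_add (g m)
    rwa [one_smul] at h1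
  have hddr : deriv d = fun _ => u := funext fun t => (hdH t).deriv
  have hc2 := orb_crv hL c (fun t => (hdH t).differentiableAt)
    (by rw [hddr]; exact continuous_const) 1
  have hs : ∫ t in (0 : ℝ)..(1 : ℕ), (L (d t) (deriv d t) t - ⟪c, deriv d t⟫) ≤
      A + ‖c‖ * Real.sqrt n := by
    have h1 : ∫ t in (0 : ℝ)..(1 : ℕ), (L (d t) (deriv d t) t - ⟪c, deriv d t⟫) ≤
        ∫ _ in (0 : ℝ)..(1 : ℕ), (A + ‖c‖ * Real.sqrt n) := by
      refine intervalIntegral.integral_mono_on (by norm_num)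
        ((orb_fc hL c (fun t => (hdH t).differentiableAt)
          (by rw [hddr]; exact continuous_const)).intervalIntegrable _ _)
        intervalIntegrable_const fun t _ => ?_
      have h2 : deriv d t = u := congrFun hddr t
      rw [h2]
      have h3 := hA (d t) u t hz
      have h4 := (abs_le.1 h3).2
      have h5 := neg_le_of_abs_le (abs_real_inner_le_norm c u)
      have h6 : ‖c‖ * ‖u‖ ≤ ‖c‖ * Real.sqrt n := mul_le_mul_of_nonneg_left hz (norm_nonneg _)
      linarith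
    refine h1.trans (le_of_eq ?_)
    rw [intervalIntegral.integral_const, smul_eq_mul, Nat.cast_one, sub_zero, one_mul]
  have h0 : g m = d 0 + zv 0 := by
    rw [hdd]
    show g m = g m + (0 : ℝ) • u + zv 0
    rw [zv_zero, zero_smul, add_zero, add_zero]
  have hd1 : d 1 = g m + u := by
    rw [hdd]
    show g m + (1 : ℝ) • u = g m + u
    rw [one_smul]
  obtain ⟨ε, h1, h2, h3⟩ := crv_cat hL.per hc1 hc2 0 h0
  have h4 : pr (ε 0) = pr (ε ((m + 1 : ℕ) : ℝ)) := by
    rw [pr_eq_pr]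
    refine ⟨z, ?_⟩
    rw [h2, h3, zv_zero, add_zero, Nat.cast_one, hd1, hu]
    abel
  have h5 := csInf_le (lm_bdd hL c).1 (orb_mem (Nat.succ_pos m) h1 h4)
  have hm : (0 : ℝ) < ((m + 1 : ℕ) : ℝ) := Nat.cast_pos.2 (Nat.succ_pos m)
  rw [le_div_iff₀ hm] at h5
  have h6 : sInf (loopMeans L c) = -alpha L c := (neg_neg _).symm
  rw [h6] at h5
  -- the shift
  have h7 : ∫ t in (0 : ℝ)..m, (L (g t) (deriv g t) t - ⟪c, deriv g t⟫) =
      ∫ t in (1 : ℝ)..(m + 1), (L (γ t) (deriv γ t) t - ⟪c, deriv γ t⟫) := by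
    have h8 : (fun t => L (g t) (deriv g t) t - ⟪c, deriv g t⟫) = fun t =>
        (fun t => L (γ t) (deriv γ t) t - ⟪c, deriv γ t⟫) (t + 1) := by
      funext t
      show L (g t) (deriv g t) t - ⟪c, deriv g t⟫ =
        L (γ (t + 1)) (deriv γ (t + 1)) (t + 1) - ⟪c, deriv γ (t + 1)⟫
      rw [hgd]
      have h9 : L (g t) (deriv γ (t + 1)) t = L (γ (t + 1)) (deriv γ (t + 1)) (t + 1) := by
        refine hL.per _ _ _ _ _ (by rw [hg]) ?_
        rw [← sub_eq_zero, ← AddCircle.coe_sub, AddCircle.coe_eq_zero_iff]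
        exact ⟨-1, by simp⟩
      rw [h9]
    rw [h8]
    refine (intervalIntegral.integral_comp_add_right
      (fun t => L (γ t) (deriv γ t) t - ⟪c, deriv γ t⟫) 1).trans ?_
    rw [zero_add]
  rw [← h7]
  have h10 : (((m + 1 : ℕ) : ℝ)) * alpha L c = -(-alpha L c * ((m + 1 : ℕ) : ℝ)) := by ring
  rw [h10]
  linarith

theorem orb {L : E n → E n → ℝ → ℝ} (hL : Ton L) (c : E n) :
    ∃ C : ℝ, ∀ γ : ℝ → E n, IsEL L γ → ∀ (τ : ℝ) (k : ℕ), 0 ≤ τ → τ ≤ 1 →
      -(k * alpha L c) - C ≤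
        ∫ t in τ..(τ + k), (L (γ t) (deriv γ t) t - ⟪c, deriv γ t⟫) := by
  obtain ⟨B, hB0, hB⟩ := orb_lo hL c
  obtain ⟨C₀, hC₀, hC⟩ := orb_int hL c
  refine ⟨2 * B + C₀ + |alpha L c|, fun γ hγ τ k h0 h1 => ?_⟩
  have hc := (elg hL hγ).1
  have hf := orb_fc hL c hγ.1 hc
  have hlow : ∀ a b : ℝ, a ≤ b → -(B * (b - a)) ≤
      ∫ t in a..b, (L (γ t) (deriv γ t) t - ⟪c, deriv γ t⟫) := by
    intro a b hab
    have h2 : ∫ _ in a..b, (-B) ≤
        ∫ t in a..b, (L (γ t) (deriv γ t) t - ⟪c, deriv γ t⟫) :=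
      intervalIntegral.integral_mono_on hab intervalIntegrable_const
        (hf.intervalIntegrable _ _) fun t _ => hB _ _ _
    rw [intervalIntegral.integral_const, smul_eq_mul] at h2
    linarith
  rcases k with _ | k
  · have h2 := hlow τ (τ + (0 : ℕ)) (by simp)
    have h3 := abs_nonneg (alpha L c)
    simp only [Nat.cast_zero, zero_mul, neg_zero, zero_sub, add_zero, sub_self, mul_zero] at h2 ⊢
    linarith
  · have e1 : ((k + 1 : ℕ) : ℝ) = k + 1 := by push_cast; rfl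
    have hk : (0 : ℝ) ≤ k := Nat.cast_nonneg k
    have h2 := hC γ hγ.1 hc k
    have h3 := hlow τ 1 h1
    have h4 := hlow (k + 1) (τ + ((k + 1 : ℕ) : ℝ)) (by rw [e1]; linarith)
    have h5 : ∫ t in τ..(τ + ((k + 1 : ℕ) : ℝ)), (L (γ t) (deriv γ t) t - ⟪c, deriv γ t⟫) =
        (∫ t in τ..1, (L (γ t) (deriv γ t) t - ⟪c, deriv γ t⟫)) +
        (∫ t in (1 : ℝ)..(k + 1), (L (γ t) (deriv γ t) t - ⟪c, deriv γ t⟫)) +
        ∫ t in (k + 1 : ℝ)..(τ + ((k + 1 : ℕ) : ℝ)),
          (L (γ t) (deriv γ t) t - ⟪c, deriv γ t⟫) := by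
      rw [intervalIntegral.integral_add_adjacent_intervals (hf.intervalIntegrable _ _)
        (hf.intervalIntegrable _ _), intervalIntegral.integral_add_adjacent_intervals
        (hf.intervalIntegrable _ _) (hf.intervalIntegrable _ _)]
    rw [h5]
    have h6 := abs_nonneg (alpha L c)
    have h7 : B * (1 - τ) ≤ B := by nlinarith
    have h8 : B * (τ + ((k + 1 : ℕ) : ℝ) - (k + 1)) ≤ B := by
      rw [e1]
      nlinarith
    linarith

end Pool.Agent.H68.TM
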