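import Pool.Agent.H68.TM.Def
import Pool.Agent.H68.TM.Orb
import Pool.Agent.H33.AM.P.I2b

/-!
# Module Gem: invariant measures: the lower bound
As in H33/AM/P/I2b.lean (`actionValues_ge`): for `z` in the phase space, `IsELFlow` at `(repE z.1, z.2.1, rep z.2.2)` gives a solution `γ` with
`Lc L c (Φ s z) = L (γ (τ + s)) (deriv γ (τ + s)) (τ + s) - ⟪c, ...⟫`, `τ = rep z.2.2 ∈ [0, 1)` (periodicity), continuous in `s` (`elg`);
`∫_0^k Lc (Φ s z) ds ≥ -k α - C` (`orb`); integrate over `μ` (Fubini, `measurable_uncurry_of_continuous_of_measurable`, invariance):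
`k ∫ Lc dμ ≥ -k α - C`; `k → ∞`.
-/

set_option autoImplicit false

open MeasureTheory Filter
open scoped RealInnerProductSpace Topology

namespace Pool.Agent.H68.TM

open Pool.Agent.H33.AM (E Tor pr IsPeriodic IsEL IsELFlow Ph Lc rep repE actionValues)
open Pool.Agent.H68.HD
open Pool.Agent.H68.TO (Slow Cst)
open Pool.Agent.H68.TG

variable {n : ℕ}

private theorem gem_rep_mem (a : UnitAddCircle) : 0 ≤ rep a ∧ rep a ≤ 1 := by
  unfold rep
  have h := (AddCircle.equivIco (1 : ℝ) 0 a).2
  rw [Set.mem_Ico] at h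
  exact ⟨h.1, by linarith [h.2]⟩

private theorem gem_meas_rep : Measurable rep := by
  unfold rep
  exact measurable_subtype_coe.comp (AddCircle.measurableEquivIco (1 : ℝ) 0).measurable

private theorem gem_meas_Lc {L : E n → E n → ℝ → ℝ} (hL : Ton L) (c : E n) :
    Measurable (Lc L c) := by
  have hc : Continuous fun z : E n × E n × ℝ => L z.1 z.2.1 z.2.2 := hL.smooth.continuous
  have h1 : Measurable fun z : Ph n => ((repE z.1, z.2.1, rep z.2.2) : E n × E n × ℝ) :=
    (Pool.Agent.H33.AM.measurable_repE.comp measurable_fst).prodMk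
      ((measurable_fst.comp measurable_snd).prodMk
        (gem_meas_rep.comp (measurable_snd.comp measurable_snd)))
  have h2 : Measurable fun z : Ph n => L (repE z.1) z.2.1 (rep z.2.2) := hc.measurable.comp h1
  have h3 : Measurable fun z : Ph n => ⟪c, z.2.1⟫ := by
    have h4 : Continuous fun v : E n => (⟪c, v⟫ : ℝ) := continuous_const.inner continuous_id
    exact h4.measurable.comp (measurable_fst.comp measurable_snd)
  exact h2.sub h3

/-- Along the orbits. -/
private theorem gem_orbit {L : E n → E n → ℝ → ℝ} (hL : Ton L) (c : E n) {Φ : ℝ → Ph n → Ph n}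
    (hΦ : IsELFlow L Φ) (z : Ph n) :
    ∃ γ : ℝ → E n, IsEL L γ ∧ ∀ s, Lc L c (Φ s z) =
      L (γ (rep z.2.2 + s)) (deriv γ (rep z.2.2 + s)) (rep z.2.2 + s) -
        ⟪c, deriv γ (rep z.2.2 + s)⟫ := by
  obtain ⟨X, v₀, τ⟩ := z
  obtain ⟨γ, hEL, h0, h1, h2⟩ := hΦ (repE X) v₀ (rep τ)
  refine ⟨γ, hEL, fun s => ?_⟩
  have h3 := h2 s
  rw [Pool.Agent.H33.AM.pr_repE, Pool.Agent.H33.AM.rep_coe] at h3
  rw [h3]
  unfold Lc
  simp only
  rw [hL.per (repE (pr (γ (rep τ + s)))) (γ (rep τ + s)) (deriv γ (rep τ + s))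
    (rep ((rep τ + s : ℝ) : UnitAddCircle)) (rep τ + s)
    (Pool.Agent.H33.AM.pr_repE _) (Pool.Agent.H33.AM.rep_coe _)]

private theorem gem_cont {L : E n → E n → ℝ → ℝ} (hL : Ton L) (c : E n) {γ : ℝ → E n}
    (h : IsEL L γ) : Continuous fun t => L (γ t) (deriv γ t) t - ⟪c, deriv γ t⟫ := by
  have hc : Continuous fun z : E n × E n × ℝ => L z.1 z.2.1 z.2.2 := hL.smooth.continuous
  have h1 : Continuous (deriv γ) := (elg hL h).1
  have h2 : Continuous γ := continuous_iff_continuousAt.2 fun t => (h.1 t).continuousAt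
  exact (hc.comp (h2.prodMk (h1.prodMk continuous_id))).sub (continuous_const.inner h1)

theorem av_ge {L : E n → E n → ℝ → ℝ} (hL : Ton L) (c : E n) {a : ℝ}
    (ha : a ∈ actionValues L c) : -alpha L c ≤ a := by
  obtain ⟨Φ, hΦ, μ, hμ, hinv, hint, rfl⟩ := ha
  obtain ⟨C, hC⟩ := orb hL c
  set g : Ph n → ℝ := Lc L c with hg
  have hgm : Measurable g := gem_meas_Lc hL c
  have hcont : ∀ z : Ph n, Continuous fun s => g (Φ s z) := by
    intro z
    obtain ⟨γ, h1, h3⟩ := gem_orbit hL c hΦ z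
    have h4 : (fun s => g (Φ s z)) = (fun t => L (γ t) (deriv γ t) t - ⟪c, deriv γ t⟫) ∘
        fun s => rep z.2.2 + s := by
      funext s
      exact h3 s
    rw [h4]
    exact (gem_cont hL c h1).comp (continuous_const.add continuous_id)
  have hmeas : ∀ s, Measurable fun z => g (Φ s z) := fun s => hgm.comp (hinv s).measurable
  have hjoint : Measurable (Function.uncurry fun (s : ℝ) (z : Ph n) => g (Φ s z)) :=
    measurable_uncurry_of_continuous_of_measurable hcont hmeas
  have hint' : ∀ s, Integrable (fun z => g (Φ s z)) μ := fun s =>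
    (hinv s).integrable_comp_of_integrable hint
  have hval : ∀ s, ∫ z, g (Φ s z) ∂μ = ∫ z, g z ∂μ := by
    intro s
    have h1 := integral_map (μ := μ) (φ := Φ s) (hinv s).measurable.aemeasurable
      (f := g) (hgm.aestronglyMeasurable)
    rw [← h1, (hinv s).map_eq]
  have hvaln : ∀ s, ∫ z, ‖g (Φ s z)‖ ∂μ = ∫ z, ‖g z‖ ∂μ := by
    intro s
    have h1 := integral_map (μ := μ) (φ := Φ s) (hinv s).measurable.aemeasurable
      (f := fun z => ‖g z‖) (hgm.norm.aestronglyMeasurable)
    rw [← h1, (hinv s).map_eq]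
  -- the lower bound along the orbits
  have hlow : ∀ (k : ℕ), ∀ z : Ph n,
      -(k * alpha L c) - C ≤ ∫ s in (0 : ℝ)..(k : ℝ), g (Φ s z) := by
    intro k z
    obtain ⟨γ, h1, h3⟩ := gem_orbit hL c hΦ z
    have h4 := hC γ h1 (rep z.2.2) k (gem_rep_mem z.2.2).1 (gem_rep_mem z.2.2).2
    have h5 : (∫ s in (0 : ℝ)..(k : ℝ), g (Φ s z)) =
        ∫ s in (0 : ℝ)..(k : ℝ), (fun t => L (γ t) (deriv γ t) t - ⟪c, deriv γ t⟫)
          (rep z.2.2 + s) := by
      refine intervalIntegral.integral_congr fun s _ => ?_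
      exact h3 s
    rw [h5, intervalIntegral.integral_comp_add_left
      (fun t => L (γ t) (deriv γ t) t - ⟪c, deriv γ t⟫) (rep z.2.2), add_zero]
    exact h4
  -- Fubini
  have hfub : ∀ (k : ℕ), -(k * alpha L c) - C ≤ k * ∫ z, g z ∂μ := by
    intro k
    have hT : (0 : ℝ) ≤ (k : ℝ) := Nat.cast_nonneg k
    set ν : Measure ℝ := volume.restrict (Set.Ioc (0 : ℝ) k) with hν
    have hfin : IsFiniteMeasure ν := by
      rw [hν]
      infer_instance
    have hprod : Integrable (Function.uncurry fun (s : ℝ) (z : Ph n) => g (Φ s z)) (ν.prod μ) := by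
      rw [integrable_prod_iff hjoint.aestronglyMeasurable]
      refine ⟨Filter.Eventually.of_forall fun s => hint' s, ?_⟩
      have : (fun s : ℝ => ∫ z, ‖Function.uncurry (fun (s : ℝ) (z : Ph n) => g (Φ s z)) (s, z)‖ ∂μ)
          = fun _ => ∫ z, ‖g z‖ ∂μ := by
        funext s
        exact hvaln s
      rw [this]
      exact integrable_const _
    have hsw := integral_integral_swap hprod
    have hl : ∫ s, ∫ z, g (Φ s z) ∂μ ∂ν = k * ∫ z, g z ∂μ := by
      have : (fun s : ℝ => ∫ z, g (Φ s z) ∂μ) = fun _ => ∫ z, g z ∂μ := by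
        funext s
        exact hval s
      rw [this, integral_const, smul_eq_mul, hν, measureReal_restrict_apply_univ]
      simp [Real.volume_real_Ioc_of_le hT]
    rw [← hl, hsw]
    have hr : Integrable (fun z => ∫ s, g (Φ s z) ∂ν) μ := hprod.integral_prod_right
    have hc : ∫ _z : Ph n, (-(k * alpha L c) - C) ∂μ = -(k * alpha L c) - C := by
      simp
    rw [← hc]
    refine integral_mono (integrable_const _) hr fun z => ?_
    simp only
    have := hlow k z
    rw [intervalIntegral.integral_of_le hT] at this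
    exact this
  -- the limit
  by_contra hcon
  rw [not_le] at hcon
  set a := ∫ z, g z ∂μ with ha
  have hδ : 0 < -alpha L c - a := by linarith
  obtain ⟨k, hk⟩ := exists_nat_gt ((|C| + 1) / (-alpha L c - a))
  have h1 := hfub k
  have h2 : |C| + 1 < k * (-alpha L c - a) := by
    rw [div_lt_iff₀ hδ] at hk
    exact hk
  have h3 : C ≤ |C| := le_abs_self C
  nlinarith [h1, h2, h3]

end Pool.Agent.H68.TM
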